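import Pool.Agent.TH442.RP.Flip
import Pool.Agent.TH680.IE.Law

/-! Definability. -/

set_option autoImplicit false

namespace Pool.Agent.TH442.RP

open Pool.Agent.NPC Pool.Agent.H620R2.Gauge Pool.Agent.H591R3.PHG Pool.Agent.H622R2
  Pool.Agent.W900.IE

theorem ora_append (π : Perms) (y : List Bool) : ∀ i : ℕ,
    ora π (List.replicate i true ++ false :: y) = (app π y).getD i false := by
  intro i
  have h : ∀ i : ℕ, (List.replicate i true ++ false :: y).takeWhile id = List.replicate i true ∧
      (List.replicate i true ++ false :: y).dropWhile id = false :: y := by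
    intro i
    induction i with
    | zero => simp
    | succ i ih => simp [List.replicate_succ, ih.1, ih.2]
  unfold ora
  rw [(h i).1, (h i).2]
  simp

theorem ora_iff (π : Perms) (q : List Bool) : ora π q = true ↔ ∃ v y : List Bool,
    q = v ++ false :: y ∧ v.all id = true ∧ (app π y).getD v.length false = true := by
  constructor
  · intro h
    have h1 : q.takeWhile id ++ q.dropWhile id = q := List.takeWhile_append_dropWhile
    rcases hd : q.dropWhile id with _ | ⟨b, y⟩
    · unfold ora at h
      rw [hd] at h
      simp [app] at h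
    · have hb : b = false := by
        have h2 : ¬ id ((q.dropWhile id).head (by rw [hd]; simp)) = true :=
          List.head_dropWhile_not id (l := q) (by rw [hd]; simp) ▸ (by simp)
        simpa [hd] using h2
      subst hb
      refine ⟨q.takeWhile id, y, ?_, ?_, ?_⟩
      · rw [← hd, h1]
      · exact List.all_takeWhile
      · unfold ora at h
        rw [hd] at h
        exact h
  · rintro ⟨v, y, rfl, hv, h⟩
    have h1 : v = List.replicate v.length true := by
      rw [List.eq_replicate_iff]
      refine ⟨rfl, fun b hb => ?_⟩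
      simpa using List.all_eq_true.1 hv b hb
    rw [h1, ora_append]
    simpa using h

/-- the permutations are definable -/
def GD (A : Oracle) (d : ℕ) (π : Perms) : Prop :=
  TL A d (fun p : List Bool × List Bool => p.2 = app π p.1)

theorem take_replicate {y : List Bool} {i : ℕ} (hi : i < y.length) :
    (y.map (fun _ => true)).take i = List.replicate i true := by
  apply List.ext_getElem
  · simp; omega
  · intro j h1 h2
    simp

theorem poly_takeN {α : Type} [TEnc α] {l : α → List Bool} {n : α → ℕ} (hl : Poly l)
    (hn : Poly n) : Poly (fun a => (l a).take (n a)) := by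
  have h1 : UPoly (fun a => min (n a) (l a).length) :=
    UPoly.of_le (Poly.min hn (Poly.length hl)) (UPoly.length hl) fun v => min_le_right _ _
  refine (poly_take hl h1).congr fun a => ?_
  rcases Nat.le_total (n a) (l a).length with h | h
  · rw [min_eq_left h]
  · rw [min_eq_right h, List.take_of_length_le le_rfl, List.take_of_length_le h]

theorem gd_of_ora {A : Oracle} {d : ℕ} {π : Perms}
    (h : TL A d (fun q : List Bool => ora π q = true)) : GD A (2 * d + 1) π := by
  have hq : Poly (fun v : (List Bool × List Bool) × ℕ =>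
      (v.1.1.map (fun _ => true)).take v.2 ++ false :: v.1.1) :=
    Poly.append (poly_takeN (NPC.Poly.map (F := fun _ _ => true) (Poly.fst (Poly.fst Poly.id))
      (NPC.Poly.const true)) (Poly.snd Poly.id))
      (Poly.cons (NPC.Poly.const false) (Poly.fst (Poly.fst Poly.id)))
  have h1 : TL A 0 (fun v : (List Bool × List Bool) × ℕ => v.1.2[v.2]? = some true) :=
    TL.dec A (Poly.decide_eq (Poly.getElem? (Poly.snd (Poly.fst Poly.id)) (Poly.snd Poly.id))
      (NPC.Poly.const (some true)))
  have h2 := ((h.comp hq).iff h1).allLt (m := fun v : List Bool × List Bool => v.1.length)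
    (UPoly.length (Poly.fst Poly.id))
  have h3 : TL A 0 (fun v : List Bool × List Bool => v.2.length = v.1.length) :=
    TL.dec A (Poly.decide_eq (Poly.length (Poly.snd Poly.id)) (Poly.length (Poly.fst Poly.id)))
  refine ((h3.and h2).mono (by omega)).congr fun p => ?_
  obtain ⟨y, z⟩ := p
  dsimp only
  have key : ∀ i < y.length, ora π ((y.map (fun _ => true)).take i ++ false :: y) =
      (app π y).getD i false := by
    intro i hi
    rw [take_replicate hi, ora_append]
  constructor
  · rintro rfl
    refine ⟨length_app π y, fun i hi => ?_⟩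
    rw [key i hi, List.getD_eq_getElem?_getD,
      List.getElem?_eq_getElem (by rw [length_app]; exact hi)]
    simp
  · rintro ⟨h4, h5⟩
    apply List.ext_getElem
    · rw [h4, length_app]
    · intro i hi hi'
      have h6 := h5 i (by omega)
      rw [key i (by omega), List.getD_eq_getElem?_getD, List.getElem?_eq_getElem hi',
        List.getElem?_eq_getElem hi] at h6
      simp only [Option.getD_some, Option.some.injEq] at h6
      exact (Bool.eq_iff_iff.2 h6).symm

theorem ora_of_gd {A : Oracle} {d : ℕ} {π : Perms} (h : GD A d π) :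
    TL A (d + 1) (fun q : List Bool => ora π q = true) := by
  -- the variables: `(q, ((v, y), z))`
  have h1 : TL A 0 (fun w : List Bool × ((List Bool × List Bool) × List Bool) =>
      w.1 = w.2.1.1 ++ false :: w.2.1.2) :=
    TL.dec A (Poly.decide_eq (Poly.fst Poly.id) (Poly.append
      (Poly.fst (Poly.fst (Poly.snd Poly.id)))
      (Poly.cons (NPC.Poly.const false) (Poly.snd (Poly.fst (Poly.snd Poly.id))))))
  have h2 : TL A 0 (fun w : List Bool × ((List Bool × List Bool) × List Bool) =>
      w.2.1.1.all id = true) :=
    TL.poly A (Poly.all (p := fun _ b => id b) (Poly.fst (Poly.fst (Poly.snd Poly.id)))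
      (Poly.snd Poly.id))
  have h3 : TL A d (fun w : List Bool × ((List Bool × List Bool) × List Bool) =>
      w.2.2 = app π w.2.1.2) :=
    TL.comp h (f := fun w : List Bool × ((List Bool × List Bool) × List Bool) => (w.2.1.2, w.2.2))
      (Poly.pair (Poly.snd (Poly.fst (Poly.snd Poly.id))) (Poly.snd (Poly.snd Poly.id)))
  have h4 : TL A 0 (fun w : List Bool × ((List Bool × List Bool) × List Bool) =>
      w.2.2.getD w.2.1.1.length false = true) :=
    TL.poly A (Poly.getD (Poly.snd (Poly.snd Poly.id))
      (Poly.length (Poly.fst (Poly.fst (Poly.snd Poly.id)))) (NPC.Poly.const false))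
  have h5 := (h1.and (h2.and (h3.and h4))).ex (m := fun q : List Bool => 12 * q.length + 5)
    (UPoly.add (UPoly.mul (UPoly.const 12) (UPoly.length Poly.id)) (UPoly.const 5))
  refine (h5.mono (by omega)).congr fun q => ?_
  rw [ora_iff]
  constructor
  · rintro ⟨v, y, rfl, hv, h⟩
    refine ⟨((v, y), app π y), ?_, rfl, hv, rfl, h⟩
    rw [sz_pair, sz_pair]
    have e1 := sz_listBool_le v
    have e2 := sz_listBool_le y
    have e3 := sz_listBool_le (app π y)
    rw [length_app] at e3
    simp only [List.length_append, List.length_cons]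
    omega
  · rintro ⟨⟨⟨v, y⟩, z⟩, _, h6, h7, h8, h9⟩
    dsimp only at h6 h7 h8 h9
    subst h8
    exact ⟨v, y, h6, h7, h9⟩

theorem gd_mul {A : Oracle} {d e : ℕ} {π σ : Perms} (h : GD A d π) (h' : GD A e σ) :
    GD A (e + d + 1) (π * σ) := by
  have h1 : TL A e (fun w : (List Bool × List Bool) × List Bool => w.2 = app σ w.1.1) :=
    TL.comp h' (f := fun w : (List Bool × List Bool) × List Bool => (w.1.1, w.2))
      (Poly.pair (Poly.fst (Poly.fst Poly.id)) (Poly.snd Poly.id))
  have h2 : TL A d (fun w : (List Bool × List Bool) × List Bool => w.1.2 = app π w.2) :=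
    TL.comp h (f := fun w : (List Bool × List Bool) × List Bool => (w.2, w.1.2))
      (Poly.pair (Poly.snd Poly.id) (Poly.snd (Poly.fst Poly.id)))
  have h3 := (h1.and h2).ex (m := fun p : List Bool × List Bool => 4 * p.1.length + 1)
    (UPoly.add (UPoly.mul (UPoly.const 4) (UPoly.length (Poly.fst Poly.id))) (UPoly.const 1))
  refine TL.congr h3 fun p => ?_
  rw [app_mul]
  constructor
  · intro h4
    refine ⟨app σ p.1, ?_, rfl, h4⟩
    have := sz_listBool_le (app σ p.1)
    rw [length_app] at this
    exact this
  · rintro ⟨z, _, h4, h5⟩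
    dsimp only at h4 h5
    rw [h5, h4]

theorem poly_flip : Poly (flip (fun _ => true)) := by
  have h : Poly (fun y : List Bool => if y.tail = [] then y else
      (y.head?.getD false) :: (y.tail.head?.getD false ^^ y.head?.getD false) :: y.tail.tail) :=
    Poly.ite (Poly.decide_eq (Poly.tail Poly.id) (NPC.Poly.const [])) Poly.id
      (Poly.cons (Poly.head?_getD Poly.id false) (Poly.cons (Poly.xor
        (Poly.head?_getD (Poly.tail Poly.id) false) (Poly.head?_getD Poly.id false))
        (Poly.tail (Poly.tail Poly.id))))
  refine h.congr fun y => ?_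
  rcases y with _ | ⟨a, _ | ⟨e, w⟩⟩
  · rfl
  · rfl
  · simp [flip_cons]

theorem gd_P {A c : Oracle} {d : ℕ} (h : TL A d (fun w : List Bool => c w = true)) :
    GD A (2 * d) (P c) := by
  have h1 : TL A d (fun p : List Bool × List Bool => c p.1.tail.tail = true) :=
    h.comp (Poly.tail (Poly.tail (Poly.fst Poly.id)))
  have h2 : TL A 0 (fun p : List Bool × List Bool => p.2 = flip (fun _ => true) p.1) :=
    TL.dec A (Poly.decide_eq (Poly.snd Poly.id) (poly_flip.comp (Poly.fst Poly.id)))
  have h3 : TL A 0 (fun p : List Bool × List Bool => p.2 = p.1) :=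
    TL.dec A (Poly.decide_eq (Poly.snd Poly.id) (Poly.fst Poly.id))
  refine (((h1.and h2).or (h1.not.and h3)).mono (by omega)).congr fun p => ?_
  obtain ⟨y, z⟩ := p
  dsimp only
  rw [app_P]
  rcases y with _ | ⟨a, _ | ⟨e, w⟩⟩
  · simp only [flip_nil, List.tail_nil]
    cases c [] <;> simp
  · simp only [flip_one, List.tail_cons, List.tail_nil]
    cases c [] <;> simp
  · simp only [flip_cons, List.tail_cons]
    cases c w <;> simp

theorem gd_conj {A c : Oracle} {π : Perms} {d e : ℕ} (h : TL A d (fun w : List Bool => c w = true))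
    (h' : GD A e π) : GD A (4 * d + e + 2) (P c * π * P c) :=
  TL.mono (by omega) (gd_mul (gd_mul (gd_P h) h') (gd_P h))

theorem tl_u {A : Oracle} {d : ℕ} {π : Perms} (h : GD A d π) :
    TL A (d + 1) (fun x : List Bool => u π x = true) := by
  have h1 : TL A d (fun w : List Bool × List Bool => w.1 = app π w.2) :=
    TL.comp h (f := fun w : List Bool × List Bool => (w.2, w.1))
      (Poly.pair (Poly.snd Poly.id) (Poly.fst Poly.id))
  have h2 : TL A 0 (fun w : List Bool × List Bool => w.2.head? = some false) :=
    TL.dec A (Poly.decide_eq (Poly.head? (Poly.snd Poly.id)) (NPC.Poly.const _))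
  have h3 := (h1.and h2).ex (m := fun x : List Bool => 4 * x.length + 1)
    (UPoly.add (UPoly.mul (UPoly.const 4) (UPoly.length Poly.id)) (UPoly.const 1))
  refine TL.congr h3 fun x => ?_
  unfold u
  rw [beq_iff_eq]
  constructor
  · intro h4
    refine ⟨app π⁻¹ x, ?_, (app_inv' π x).symm, h4⟩
    have := sz_listBool_le (app π⁻¹ x)
    rw [length_app] at this
    exact this
  · rintro ⟨z, _, h4, h5⟩
    dsimp only at h4 h5
    rw [h4, app_inv, h5]

theorem tl_R {A : Oracle} {d : ℕ} {π : Perms} (h : GD A d π) :
    TL A (2 * d + 2) (fun w : List Bool => R π w = true) := by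
  have h1 := (tl_u h).comp (f := fun w : List Bool => true :: true :: w)
    (Poly.cons (NPC.Poly.const true) (Poly.cons (NPC.Poly.const true) Poly.id))
  have h2 := (tl_u h).comp (f := fun w : List Bool => true :: false :: w)
    (Poly.cons (NPC.Poly.const true) (Poly.cons (NPC.Poly.const false) Poly.id))
  refine ((h1.and h2.not).mono (by omega)).congr fun w => ?_
  unfold R
  cases u π (true :: true :: w) <;> cases u π (true :: false :: w) <;> simp

/-- The random bits are definable from the permutations. -/
theorem tl_xor (π : Perms) :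
    TL (ora π) 4 (fun q : List Bool => (oA π q ^^ oB π q) = true) := by
  have h1 : GD (ora π) 1 π := TL.mono (by omega) (gd_of_ora (TH680.IE.tl_query (ora π)))
  have h2 : TL (ora π) 4 (fun q : List Bool => R π q.tail = true) := (tl_R h1).comp (Poly.tail Poly.id)
  have h3 : TL (ora π) 0 (fun q : List Bool => q.head? = some true) :=
    TL.dec _ (Poly.decide_eq (Poly.head? Poly.id) (NPC.Poly.const _))
  refine ((h3.and h2).mono (by omega)).congr fun q => ?_
  rcases q with _ | ⟨_ | _, q⟩
  · simp [oA, oB]
  · simp [oA, oB]
  · simp [oA, oB]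

/-- The permutations are definable from the oracle with the random bits. -/
theorem tl_back (π : Perms) : TL (oA π) 4 (fun q : List Bool => ora π q = true) := by
  have h1 : TL (oA π) 0 (fun q : List Bool => ora (rho π) q = true) :=
    TL.query (oA π) (q := fun q : List Bool => false :: q)
      (Poly.cons (NPC.Poly.const false) Poly.id)
  have h2 : TL (oA π) 0 (fun w : List Bool => R π w = true) :=
    TL.query (oA π) (q := fun w : List Bool => true :: w)
      (Poly.cons (NPC.Poly.const true) Poly.id)
  have h3 := gd_conj h2 (gd_of_ora h1)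
  rw [rho_back] at h3
  exact TL.mono (by omega) (ora_of_gd h3)

/-- **The hierarchy is infinite if the hard languages are hard.** -/
theorem infinite_of_hard {π : Perms}
    (h : ∀ k, ¬ IsSig (oA π) k (lang k (DO k (fun q => (oA π q ^^ oB π q))))) :
    InfinitePH (ora π) := by
  by_contra hcon
  obtain ⟨K, hK⟩ := not_infinite_iff.1 hcon
  have h1 : ∀ k, Lev (ora π) K
      (fun x => x ∈ lang k (DO k (fun q => (oA π q ^^ oB π q)))) := fun k =>
    hK _ _ (Lev.derived (tl_DO (tl_xor π) k)
      (lev_of_isSig (lang_sig (DO k (fun q => (oA π q ^^ oB π q))) k)))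
  have h2 := fun k => (Lev.derived (tl_back π) (h1 k)).isSig
  exact h _ (h2 _)

end Pool.Agent.TH442.RP
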