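import Pool.Agent.TH442.RP.Main

/-! Arbitrary laws that are invariant under conjugation. -/

set_option autoImplicit false

namespace Pool.Agent.TH442.RP

open MeasureTheory ProbabilityTheory Pool.Agent.NPC Pool.Agent.H620R2.Gauge
  Pool.Agent.H591R3.PHG Pool.Agent.W900 Pool.Agent.W900.IE Pool.Agent.TH680.IE

instance disc (n : ℕ) : DiscreteMeasurableSpace (Equiv.Perm (Fin n → Bool)) := ⟨fun _ => trivial⟩

/-- the conjugate -/
def cj (τ π : Perms) : Perms := fun n => τ n * π n * (τ n)⁻¹

/-- independent uniformly random permutations -/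
noncomputable def um : Measure Perms :=
  Measure.infinitePi fun n =>
    (PMF.uniformOfFintype (Equiv.Perm (Fin n → Bool))).toMeasure

instance : IsProbabilityMeasure um := by
  unfold um
  infer_instance

theorem measurable_cj : Measurable fun p : Perms × Perms => cj p.1 p.2 := by
  rw [measurable_pi_iff]
  intro n
  have h1 : Measurable fun p : Equiv.Perm (Fin n → Bool) × Equiv.Perm (Fin n → Bool) =>
      p.1 * p.2 * p.1⁻¹ := Measurable.of_discrete
  have h2 : Measurable fun p : Perms × Perms => (p.1 n, p.2 n) :=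
    ((measurable_pi_apply n).comp measurable_fst).prodMk
      ((measurable_pi_apply n).comp measurable_snd)
  exact h1.comp h2

/-- the law of the conjugate -/
noncomputable def orb (π : Perms) (n : ℕ) : PMF (Equiv.Perm (Fin n → Bool)) :=
  (PMF.uniformOfFintype (Equiv.Perm (Fin n → Bool))).map fun τ => τ * π n * τ⁻¹

theorem inv_orb (π : Perms) : Inv (orb π) := by
  classical
  intro n r σ
  unfold orb
  rw [PMF.map_apply, PMF.map_apply, ← (Equiv.mulLeft σ).tsum_eq]
  refine tsum_congr fun τ => ?_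
  have h1 : (Equiv.mulLeft σ) τ * π n * ((Equiv.mulLeft σ) τ)⁻¹ =
      σ * (τ * π n * τ⁻¹) * σ⁻¹ := by
    show (σ * τ) * π n * (σ * τ)⁻¹ = _
    group
  rw [h1]
  by_cases h : r = τ * π n * τ⁻¹
  · rw [if_pos h, if_pos (by rw [h])]
    simp
  · rw [if_neg h, if_neg fun h' => h ?_]
    have h2 := mul_right_cancel h'
    exact mul_left_cancel h2

theorem map_um (π : Perms) : um.map (fun τ => cj τ π) = law (orb π) := by
  unfold um law cj
  rw [Measure.infinitePi_map_pi (μ := fun n =>
    (PMF.uniformOfFintype (Equiv.Perm (Fin n → Bool))).toMeasure)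
    (f := fun n τ => τ * π n * τ⁻¹) (fun n => Measurable.of_discrete)]
  congr 1
  funext n
  unfold orb
  rw [PMF.toMeasure_map]
  exact Measurable.of_discrete

/-- A set which is null for all the invariant independent laws is null for all invariant laws. -/
theorem null_of_inv {ρ : Measure Perms} [IsProbabilityMeasure ρ]
    (hρ : ∀ τ : Perms, ρ.map (cj τ) = ρ) {E : Set Perms} (hE : MeasurableSet E)
    (h : ∀ μ : (n : ℕ) → PMF (Equiv.Perm (Fin n → Bool)), Inv μ → law μ E = 0) : ρ E = 0 := by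
  set G : Set (Perms × Perms) := (fun p => cj p.1 p.2) ⁻¹' E with hG
  have hGm : MeasurableSet G := measurable_cj hE
  have h1 : (um.prod ρ) G = ρ E := by
    rw [Measure.prod_apply hGm]
    have h2 : ∀ τ, ρ (Prod.mk τ ⁻¹' G) = ρ E := by
      intro τ
      have h3 : Prod.mk τ ⁻¹' G = cj τ ⁻¹' E := rfl
      have h4 : Measurable (cj τ) := measurable_cj.comp (measurable_prodMk_left (x := τ))
      rw [h3, ← Measure.map_apply h4 hE, hρ]
    simp only [h2]
    simp
  have h4 : (um.prod ρ) G = 0 := by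
    rw [Measure.prod_apply_symm hGm]
    have h5 : ∀ π, um ((fun τ => (τ, π)) ⁻¹' G) = 0 := by
      intro π
      have h6 : (fun τ => (τ, π)) ⁻¹' G = (fun τ => cj τ π) ⁻¹' E := rfl
      have h7 : Measurable (fun τ : Perms => cj τ π) := measurable_cj.comp measurable_prodMk_right
      rw [h6, ← Measure.map_apply h7 hE, map_um]
      exact h _ (inv_orb π)
    simp only [h5]
    simp
  rw [← h1, h4]

theorem ae_hard_inv {ρ : Measure Perms} [IsProbabilityMeasure ρ]
    (hρ : ∀ τ : Perms, ρ.map (cj τ) = ρ) :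
    ∀ᵐ π ∂ρ, Large π → ∀ k,
      ¬ IsSig (oA π) k (lang k (DO k (fun q => (oA π q ^^ oB π q)))) := by
  have h1 : ∀ᵐ π ∂ρ, ∀ θ : Par, π ∉ {π | Large π} ∩
      Bad (fun π : Perms => oA π) (fun π q => (oA π q ^^ oB π q)) θ.M θ.p θ.k := by
    rw [ae_all_iff]
    intro θ
    rw [MeasureTheory.ae_iff]
    simp only [not_not]
    refine null_of_inv hρ ?_ fun μ hμ => ?_
    · refine MeasurableSet.inter ?_ ?_
      · exact (meas_large measurable_id).setOf
      · exact meas_bad (mo_oA measurable_id) (mo_xor (mo_oA measurable_id)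
          (mo_oB measurable_id)) _ _ _
    · have h2 := ae_hard_perm hμ
      rw [MeasureTheory.ae_iff] at h2
      refine measure_mono_null ?_ h2
      rintro π ⟨h3, h4⟩ h5
      exact h5 h3 θ.k (isSig_iff_bad (O := fun π : Perms => oA π)
          (D := fun π q => (oA π q ^^ oB π q)).2 ⟨_, _, h4⟩)
  filter_upwards [h1] with π hπ hL k hk
  obtain ⟨M, p, h2⟩ := (isSig_iff_bad (O := fun π : Perms => oA π)
    (D := fun π q => (oA π q ^^ oB π q))).1 hk
  exact hπ ⟨M, p, k, 0⟩ ⟨hL, h2⟩

theorem ae_cases_inv {ρ : Measure Perms} [IsProbabilityMeasure ρ]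
    (hρ : ∀ τ : Perms, ρ.map (cj τ) = ρ) :
    ∀ᵐ π ∂ρ, (∃ c : ℕ, ∀ n, moved π n ≤ n ^ c + c) ∨ Large π := by
  rw [MeasureTheory.ae_iff]
  refine null_of_inv hρ ?_ fun μ hμ => ?_
  · have h1 : Measurable fun π : Perms => (∃ c : ℕ, ∀ n, moved π n ≤ n ^ c + c) := by
      refine Measurable.exists fun c => Measurable.forall fun n => ?_
      exact measurableSet_setOfPred.1 (meas_ev n
        {σ : Equiv.Perm (Fin n → Bool) | σ.support.card ≤ n ^ c + c})
    exact (h1.or (meas_large measurable_id)).not.setOf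
  · have h2 := ae_cases hμ
    rwa [MeasureTheory.ae_iff] at h2

/-- **Random permutations, arbitrary laws that are invariant under conjugation.** -/
theorem main_inv {ρ : Measure Perms} [IsProbabilityMeasure ρ]
    (hρ : ∀ τ : Perms, ρ.map (cj τ) = ρ) : ∀ᵐ π ∂ρ,
    (InfinitePH (ora π) ↔
      (¬ ∃ c : ℕ, ∀ n, moved π n ≤ n ^ c + c) ∨ InfinitePH fun _ => false) := by
  filter_upwards [ae_cases_inv hρ, ae_hard_inv hρ] with π h1 h2
  by_cases h : ∃ c : ℕ, ∀ n, moved π n ≤ n ^ c + c
  · rw [infinite_iff_of_moved h]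
    constructor
    · exact Or.inr
    · rintro (h' | h')
      · exact absurd h h'
      · exact h'
  · have h3 := infinite_of_hard (h2 (h1.resolve_left h))
    exact ⟨fun _ => Or.inl h, fun _ => h3⟩

end Pool.Agent.TH442.RP
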