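import Mathlib

/-! Counting with weights which are invariant under conjugation. -/

set_option autoImplicit false

namespace Pool.Agent.TH442.RP

open Finset

variable {X W : Type} [Fintype X] [DecidableEq X] [Fintype W]

open Classical in
/-- the weight of an event -/
noncomputable def S (ν : Equiv.Perm X → ℝ) (Q : Equiv.Perm X → Prop) : ℝ :=
  ∑ σ, if Q σ then ν σ else 0

theorem S_mono {ν : Equiv.Perm X → ℝ} (hν : ∀ σ, 0 ≤ ν σ) {Q Q' : Equiv.Perm X → Prop}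
    (h : ∀ σ, Q σ → Q' σ) : S ν Q ≤ S ν Q' := by
  classical
  refine Finset.sum_le_sum fun σ _ => ?_
  by_cases h1 : Q σ
  · rw [if_pos h1, if_pos (h σ h1)]
  · rw [if_neg h1]
    split_ifs
    · exact hν σ
    · exact le_rfl

theorem S_nonneg {ν : Equiv.Perm X → ℝ} (hν : ∀ σ, 0 ≤ ν σ) (Q : Equiv.Perm X → Prop) :
    0 ≤ S ν Q := by
  classical
  refine Finset.sum_nonneg fun σ _ => ?_
  split_ifs
  · exact hν σ
  · exact le_rfl

theorem S_congr {ν : Equiv.Perm X → ℝ} {Q Q' : Equiv.Perm X → Prop}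
    (h : ∀ σ, Q σ ↔ Q' σ) : S ν Q = S ν Q' := by
  have : Q = Q' := funext fun σ => propext (h σ)
  rw [this]

theorem S_conj {ν : Equiv.Perm X → ℝ} (hc : ∀ τ σ : Equiv.Perm X, ν (τ * σ * τ⁻¹) = ν σ)
    (τ : Equiv.Perm X) (Q : Equiv.Perm X → Prop) :
    S ν (fun σ => Q (τ * σ * τ⁻¹)) = S ν Q := by
  classical
  unfold S
  refine Fintype.sum_equiv (MulAut.conj τ).toEquiv _ _ fun σ => ?_
  show (if Q (τ * σ * τ⁻¹) then ν σ else 0) = if Q (τ * σ * τ⁻¹) then ν (τ * σ * τ⁻¹) else 0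
  rw [hc]

omit [Fintype X] [DecidableEq X] in
theorem sum_swap {s s' : Finset X} {f : X → ℝ} (h : ∀ z ∈ s, ∀ z' ∈ s', f z = f z') :
    (s'.card : ℝ) * ∑ z ∈ s, f z = s.card * ∑ z ∈ s', f z := by
  have h1 : (s'.card : ℝ) * ∑ z ∈ s, f z = ∑ z' ∈ s', ∑ z ∈ s, f z := by
    rw [Finset.sum_const, nsmul_eq_mul]
  have h2 : (s.card : ℝ) * ∑ z ∈ s', f z = ∑ z ∈ s, ∑ z' ∈ s', f z' := by
    rw [Finset.sum_const, nsmul_eq_mul]
  rw [h1, h2, Finset.sum_comm]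
  exact Finset.sum_congr rfl fun z hz => Finset.sum_congr rfl fun z' hz' => h z hz z' hz'

theorem S_sum (ν : Equiv.Perm X → ℝ) (Q : Equiv.Perm X → Prop) (p : X) (s : Finset X) :
    ∑ z ∈ s, S ν (fun σ => Q σ ∧ σ z = p) = S ν (fun σ => Q σ ∧ σ⁻¹ p ∈ s) := by
  classical
  unfold S
  rw [Finset.sum_comm]
  refine Finset.sum_congr rfl fun σ _ => ?_
  by_cases hQ : Q σ
  · simp only [hQ, true_and]
    have h1 : ∀ z, (σ z = p) ↔ (z = σ⁻¹ p) := fun z => by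
      rw [Equiv.Perm.eq_inv_iff_eq]
    simp only [h1]
    rw [Finset.sum_ite_eq']
  · simp [hQ]

variable {ν : Equiv.Perm X → ℝ}

/-- the preimage of a point is equally likely to be any of the other points -/
theorem swap_one (hc : ∀ τ σ : Equiv.Perm X, ν (τ * σ * τ⁻¹) = ν σ) {p y y' : X}
    (hy : y ≠ p) (hy' : y' ≠ p) : S ν (fun σ => σ y = p) = S ν (fun σ => σ y' = p) := by
  rw [← S_conj hc (Equiv.swap y y') (fun σ => σ y = p)]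
  refine S_congr fun σ => ?_
  simp only [Equiv.Perm.coe_mul, Function.comp_apply, Equiv.swap_inv, Equiv.swap_apply_left]
  rw [Equiv.swap_apply_eq_iff, Equiv.swap_apply_of_ne_of_ne hy.symm hy'.symm]

theorem swap_two (hc : ∀ τ σ : Equiv.Perm X, ν (τ * σ * τ⁻¹) = ν σ) {p₀ p₁ y z z' : X}
    (hz : z ≠ p₀ ∧ z ≠ p₁ ∧ z ≠ y) (hz' : z' ≠ p₀ ∧ z' ≠ p₁ ∧ z' ≠ y) :
    S ν (fun σ => σ y = p₀ ∧ σ z = p₁) = S ν (fun σ => σ y = p₀ ∧ σ z' = p₁) := by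
  rw [← S_conj hc (Equiv.swap z z') (fun σ => σ y = p₀ ∧ σ z = p₁)]
  refine S_congr fun σ => ?_
  simp only [Equiv.Perm.coe_mul, Function.comp_apply, Equiv.swap_inv, Equiv.swap_apply_left]
  rw [Equiv.swap_apply_eq_iff, Equiv.swap_apply_eq_iff,
    Equiv.swap_apply_of_ne_of_ne hz.1.symm hz'.1.symm,
    Equiv.swap_apply_of_ne_of_ne hz.2.1.symm hz'.2.1.symm,
    Equiv.swap_apply_of_ne_of_ne hz.2.2.symm hz'.2.2.symm]

/-- the probability that the preimage of a point is in `Y` -/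
theorem pre_one (hc : ∀ τ σ : Equiv.Perm X, ν (τ * σ * τ⁻¹) = ν σ) (hν : ∀ σ, 0 ≤ ν σ)
    {Y : Finset X} {p : X} (hp : p ∉ Y) (hY : Fintype.card X = 2 * Y.card) :
    S ν (fun σ => σ p ≠ p) ≤ 2 * S ν (fun σ => σ⁻¹ p ∈ Y) := by
  have h1 := sum_swap (s := Y) (s' := Finset.univ.erase p) (f := fun z => S ν (fun σ => σ z = p))
    (fun z hz z' hz' => swap_one hc (fun h => hp (h ▸ hz)) (Finset.ne_of_mem_erase hz'))
  have h2 : ∀ s : Finset X, ∑ z ∈ s, S ν (fun σ => σ z = p) = S ν (fun σ => σ⁻¹ p ∈ s) := by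
    intro s
    have := S_sum ν (fun _ => True) p s
    simpa using this
  rw [h2, h2, Finset.card_erase_of_mem (Finset.mem_univ p), Finset.card_univ] at h1
  have h3 : S ν (fun σ => σ⁻¹ p ∈ Finset.univ.erase p) = S ν (fun σ => σ p ≠ p) := by
    refine S_congr fun σ => ?_
    rw [Finset.mem_erase]
    constructor
    · rintro ⟨h, _⟩ h'
      exact h (by rw [Equiv.Perm.inv_eq_iff_eq, h'])
    · intro h
      refine ⟨fun h' => h ?_, Finset.mem_univ _⟩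
      rw [Equiv.Perm.inv_eq_iff_eq] at h'
      exact h'.symm
  rw [h3] at h1
  have hpos : 0 < Fintype.card X := Fintype.card_pos_iff.2 ⟨p⟩
  have hc1 : ((Fintype.card X - 1 : ℕ) : ℝ) = (Fintype.card X : ℝ) - 1 := by
    rw [Nat.cast_sub (by omega)]
    simp
  rw [hc1] at h1
  have hY' : (Fintype.card X : ℝ) = 2 * Y.card := by exact_mod_cast hY
  have hYpos : (0 : ℝ) < Y.card := by
    have : 0 < Y.card := by omega
    exact_mod_cast this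
  have h4 := S_nonneg hν (fun σ => σ⁻¹ p ∈ Y)
  rw [hY'] at h1
  by_contra hcon
  push Not at hcon
  have h5 := mul_lt_mul_of_pos_left hcon hYpos
  nlinarith

/-- the probability that the preimages of both points are in `Y` -/
theorem pre_two (hc : ∀ τ σ : Equiv.Perm X, ν (τ * σ * τ⁻¹) = ν σ) (hν : ∀ σ, 0 ≤ ν σ)
    {Y : Finset X} {p₀ p₁ : X} (hp₀ : p₀ ∉ Y) (hp₁ : p₁ ∉ Y) (hp : p₀ ≠ p₁) :
    ((Fintype.card X : ℝ) - 3) * S ν (fun σ => σ⁻¹ p₀ ∈ Y ∧ σ⁻¹ p₁ ∈ Y) ≤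
      (Y.card - 1) * S ν (fun σ => σ⁻¹ p₀ ∈ Y) := by
  have key : ∀ y ∈ Y, ((Fintype.card X : ℝ) - 3) * S ν (fun σ => σ y = p₀ ∧ σ⁻¹ p₁ ∈ Y) ≤
      (Y.card - 1) * S ν (fun σ => σ y = p₀) := by
    intro y hy
    have hy0 : y ≠ p₀ := fun h => hp₀ (h ▸ hy)
    have hy1 : y ≠ p₁ := fun h => hp₁ (h ▸ hy)
    set Z : Finset X := ((Finset.univ.erase p₀).erase p₁).erase y with hZ
    have hZc : Z.card = Fintype.card X - 3 := by
      rw [hZ, Finset.card_erase_of_mem, Finset.card_erase_of_mem, Finset.card_erase_of_mem,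
        Finset.card_univ]
      · omega
      · exact Finset.mem_univ _
      · exact Finset.mem_erase.2 ⟨hp.symm, Finset.mem_univ _⟩
      · exact Finset.mem_erase.2 ⟨hy1, Finset.mem_erase.2 ⟨hy0, Finset.mem_univ _⟩⟩
    have hmem : ∀ z ∈ Z, z ≠ p₀ ∧ z ≠ p₁ ∧ z ≠ y := by
      intro z hz
      rw [hZ, Finset.mem_erase, Finset.mem_erase, Finset.mem_erase] at hz
      exact ⟨hz.2.2.1, hz.2.1, hz.1⟩
    have h1 := sum_swap (s := Y.erase y) (s' := Z)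
      (f := fun z => S ν (fun σ => σ y = p₀ ∧ σ z = p₁))
      (fun z hz z' hz' => swap_two hc (by
        rw [Finset.mem_erase] at hz
        exact ⟨fun h => hp₀ (h ▸ hz.2), fun h => hp₁ (h ▸ hz.2), hz.1⟩) (hmem z' hz'))
    rw [S_sum, S_sum, hZc, Finset.card_erase_of_mem hy] at h1
    have h2 : S ν (fun σ => σ y = p₀ ∧ σ⁻¹ p₁ ∈ Y.erase y) =
        S ν (fun σ => σ y = p₀ ∧ σ⁻¹ p₁ ∈ Y) := by
      refine S_congr fun σ => ?_
      constructor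
      · rintro ⟨h3, h4⟩
        exact ⟨h3, Finset.mem_of_mem_erase h4⟩
      · rintro ⟨h3, h4⟩
        refine ⟨h3, Finset.mem_erase.2 ⟨fun h5 => hp ?_, h4⟩⟩
        rw [Equiv.Perm.inv_eq_iff_eq] at h5
        rw [← h3, h5]
    have h3 : S ν (fun σ => σ y = p₀ ∧ σ⁻¹ p₁ ∈ Z) ≤ S ν (fun σ => σ y = p₀) :=
      S_mono hν fun σ h => h.1
    have hN : 3 ≤ Fintype.card X := by
      have : ({p₀, p₁, y} : Finset X).card ≤ Fintype.card X := Finset.card_le_univ _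
      rwa [Finset.card_eq_three.2 ⟨p₀, p₁, y, hp, hy0.symm, hy1.symm, rfl⟩] at this
    have hYc : 1 ≤ Y.card := Finset.card_pos.2 ⟨y, hy⟩
    rw [Nat.cast_sub hN, Nat.cast_sub hYc, h2] at h1
    push_cast at h1
    rw [h1]
    apply mul_le_mul_of_nonneg_left h3
    have : (1 : ℝ) ≤ Y.card := by exact_mod_cast hYc
    linarith
  have h4 : S ν (fun σ => σ⁻¹ p₀ ∈ Y ∧ σ⁻¹ p₁ ∈ Y) =
      ∑ y ∈ Y, S ν (fun σ => σ y = p₀ ∧ σ⁻¹ p₁ ∈ Y) := by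
    rw [S_congr (Q' := fun σ => σ⁻¹ p₁ ∈ Y ∧ σ⁻¹ p₀ ∈ Y) (fun σ => and_comm), ← S_sum]
    exact Finset.sum_congr rfl fun y _ => S_congr fun σ => and_comm
  have h5 : S ν (fun σ => σ⁻¹ p₀ ∈ Y) = ∑ y ∈ Y, S ν (fun σ => σ y = p₀) := by
    have := S_sum ν (fun _ => True) p₀ Y
    simpa using this.symm
  rw [h4, h5, Finset.mul_sum, Finset.mul_sum]
  exact Finset.sum_le_sum key

/-- the probability that a pair can be used -/
theorem pre_xor (hc : ∀ τ σ : Equiv.Perm X, ν (τ * σ * τ⁻¹) = ν σ) (hν : ∀ σ, 0 ≤ ν σ)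
    {Y : Finset X} {p₀ p₁ : X} (hp₀ : p₀ ∉ Y) (hp₁ : p₁ ∉ Y) (hp : p₀ ≠ p₁)
    (hY : Fintype.card X = 2 * Y.card) (hY4 : 4 ≤ Y.card) :
    S ν (fun σ => σ p₀ ≠ p₀) + S ν (fun σ => σ p₁ ≠ p₁) ≤
      5 * S ν (fun σ => ¬ (σ⁻¹ p₀ ∈ Y ↔ σ⁻¹ p₁ ∈ Y)) := by
  classical
  have h0 := pre_one hc hν hp₀ hY
  have h1 := pre_one hc hν hp₁ hY
  have h2 := pre_two hc hν hp₀ hp₁ hp
  have h3 := pre_two hc hν hp₁ hp₀ hp.symm
  have h4 : S ν (fun σ => σ⁻¹ p₁ ∈ Y ∧ σ⁻¹ p₀ ∈ Y) = S ν (fun σ => σ⁻¹ p₀ ∈ Y ∧ σ⁻¹ p₁ ∈ Y) :=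
    S_congr fun σ => and_comm
  rw [h4] at h3
  have h5 : S ν (fun σ => ¬ (σ⁻¹ p₀ ∈ Y ↔ σ⁻¹ p₁ ∈ Y)) +
      2 * S ν (fun σ => σ⁻¹ p₀ ∈ Y ∧ σ⁻¹ p₁ ∈ Y) =
      S ν (fun σ => σ⁻¹ p₀ ∈ Y) + S ν (fun σ => σ⁻¹ p₁ ∈ Y) := by
    unfold S
    rw [Finset.mul_sum, ← Finset.sum_add_distrib, ← Finset.sum_add_distrib]
    refine Finset.sum_congr rfl fun σ _ => ?_
    by_cases a : σ⁻¹ p₀ ∈ Y <;> by_cases b : σ⁻¹ p₁ ∈ Y <;>
      simp only [a, b, iff_self, iff_true, iff_false, not_true_eq_false, not_false_eq_true,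
        true_and, and_true, and_self, if_true, if_false] <;> ring
  have hN : (Fintype.card X : ℝ) = 2 * Y.card := by exact_mod_cast hY
  have hY' : (4 : ℝ) ≤ Y.card := by exact_mod_cast hY4
  rw [hN] at h2 h3
  set a := S ν (fun σ => σ⁻¹ p₀ ∈ Y)
  set b := S ν (fun σ => σ⁻¹ p₁ ∈ Y)
  set t := S ν (fun σ => ¬ (σ⁻¹ p₀ ∈ Y ↔ σ⁻¹ p₁ ∈ Y))
  set d := S ν (fun σ => σ⁻¹ p₀ ∈ Y ∧ σ⁻¹ p₁ ∈ Y)
  have ha : 0 ≤ a := S_nonneg hν _
  have hb : 0 ≤ b := S_nonneg hν _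
  set y : ℝ := (Y.card : ℝ)
  -- `(2 y - 3) t ≥ (y - 2) (a + b)` and `5 (y - 2) ≥ 2 (2 y - 3)`
  have h6 : (y - 2) * (a + b) ≤ (2 * y - 3) * t := by
    have : t = a + b - 2 * d := by linarith
    rw [this]
    nlinarith
  have h7 : (2 * y - 3) * (2 * (a + b)) ≤ (2 * y - 3) * (5 * t) := by nlinarith
  have h8 : 2 * (a + b) ≤ 5 * t := le_of_mul_le_mul_left h7 (by linarith)
  linarith

/-- **The expected number of usable pairs.** -/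
theorem count (hc : ∀ τ σ : Equiv.Perm X, ν (τ * σ * τ⁻¹) = ν σ) (hν : ∀ σ, 0 ≤ ν σ)
    {Y : Finset X} {p₀ p₁ : W → X} (hp₀ : ∀ w, p₀ w ∉ Y) (hp₁ : ∀ w, p₁ w ∉ Y)
    (hp : ∀ w, p₀ w ≠ p₁ w) (hY : Fintype.card X = 2 * Y.card) (hY4 : 4 ≤ Y.card)
    (hW : Y.card = 2 * Fintype.card W) [∀ σ : Equiv.Perm X,
      DecidablePred fun w => ¬ (σ⁻¹ (p₀ w) ∈ Y ↔ σ⁻¹ (p₁ w) ∈ Y)] :
    ∑ σ, ν σ * (Finset.univ.filter (fun x => σ x ≠ x)).card ≤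
      10 * ∑ σ, ν σ *
        (Finset.univ.filter (fun w => ¬ (σ⁻¹ (p₀ w) ∈ Y ↔ σ⁻¹ (p₁ w) ∈ Y))).card := by
  classical
  have h1 : ∑ σ, ν σ * (Finset.univ.filter (fun w => ¬ (σ⁻¹ (p₀ w) ∈ Y ↔ σ⁻¹ (p₁ w) ∈ Y))).card =
      ∑ w, S ν (fun σ => ¬ (σ⁻¹ (p₀ w) ∈ Y ↔ σ⁻¹ (p₁ w) ∈ Y)) := by
    unfold S
    rw [Finset.sum_comm]
    refine Finset.sum_congr rfl fun σ _ => ?_
    rw [Finset.card_filter]
    push_cast
    rw [Finset.mul_sum]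
    refine Finset.sum_congr rfl fun w _ => ?_
    split_ifs <;> simp
  have h2 : ∑ σ, ν σ * ((Finset.univ.filter (fun x => σ x ≠ x)).card : ℝ) =
      ∑ x, S ν (fun σ => σ x ≠ x) := by
    unfold S
    rw [Finset.sum_comm]
    refine Finset.sum_congr rfl fun σ _ => ?_
    rw [Finset.card_filter]
    push_cast
    rw [Finset.mul_sum]
    refine Finset.sum_congr rfl fun w _ => ?_
    split_ifs <;> simp
  have h3 : ∀ x x' : X, S ν (fun σ => σ x ≠ x) = S ν (fun σ => σ x' ≠ x') := by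
    intro x x'
    rw [← S_conj hc (Equiv.swap x x') (fun σ => σ x ≠ x)]
    refine S_congr fun σ => ?_
    simp only [Equiv.Perm.coe_mul, Function.comp_apply, Equiv.swap_inv, Equiv.swap_apply_left,
      ne_eq]
    rw [Equiv.swap_apply_eq_iff, Equiv.swap_apply_left]
  have hX : 0 < Fintype.card X := by omega
  obtain ⟨x₀⟩ := Fintype.card_pos_iff.1 hX
  set m := S ν (fun σ => σ x₀ ≠ x₀) with hm
  have h4 : ∑ x, S ν (fun σ => σ x ≠ x) = Fintype.card X * m := by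
    rw [Finset.sum_congr rfl fun x _ => h3 x x₀, Finset.sum_const, Finset.card_univ,
      nsmul_eq_mul]
  have h5 : (Fintype.card W : ℝ) * (2 * m) ≤
      5 * ∑ w, S ν (fun σ => ¬ (σ⁻¹ (p₀ w) ∈ Y ↔ σ⁻¹ (p₁ w) ∈ Y)) := by
    rw [Finset.mul_sum, ← nsmul_eq_mul, ← Finset.card_univ, ← Finset.sum_const]
    refine Finset.sum_le_sum fun w _ => ?_
    have := pre_xor hc hν (hp₀ w) (hp₁ w) (hp w) hY hY4
    rw [h3 (p₀ w) x₀, h3 (p₁ w) x₀] at this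
    linarith
  have h6 : (Fintype.card X : ℝ) = 4 * Fintype.card W := by
    have : Fintype.card X = 4 * Fintype.card W := by omega
    exact_mod_cast this
  rw [h1, h2, h4, h6]
  linarith

end Pool.Agent.TH442.RP
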