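import Mathlib
import Pool.Agent.H620R2.Gauge.Defs

/-! Permutations of the strings of every length, and their oracles. -/

set_option autoImplicit false

namespace Pool.Agent.TH442.RP

open Pool.Agent.H620R2.Gauge

/-- A sequence of permutations: one of the strings of length `n`, for every `n`. -/
abbrev Perms : Type := (n : ℕ) → Equiv.Perm (Fin n → Bool)

/-- The image of the string `y` under the permutation for its length. -/
def app (π : Perms) (y : List Bool) : List Bool := List.ofFn (π y.length y.get)

/-- The oracle of the permutations: the answer to the question `1ⁱ0y` is the bit number `i`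
(counted from `0`) of the image of `y`; it is `false` if there is no such bit, and for the
questions `1ⁱ`. -/
def ora (π : Perms) : Oracle := fun q =>
  (app π (q.dropWhile id).tail).getD (q.takeWhile id).length false

/-- The number of strings of length `n` which are moved. -/
def moved (π : Perms) (n : ℕ) : ℕ := (π n).support.card

instance (n : ℕ) : MeasurableSpace (Equiv.Perm (Fin n → Bool)) := ⊤

/-- The distribution of independent random permutations with the distributions `μ n`. -/
noncomputable def law (μ : (n : ℕ) → PMF (Equiv.Perm (Fin n → Bool))) :
    MeasureTheory.Measure Perms :=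
  MeasureTheory.Measure.infinitePi fun n => (μ n).toMeasure

theorem length_app (π : Perms) (y : List Bool) : (app π y).length = y.length := by
  simp [app]

theorem app_eq {n : ℕ} (π : Perms) (y : List Bool) (h : y.length = n) :
    app π y = List.ofFn (π n (fun i => y.get (Fin.cast h.symm i))) := by
  subst h
  rfl

theorem app_ofFn {n : ℕ} (π : Perms) (x : Fin n → Bool) :
    app π (List.ofFn x) = List.ofFn (π n x) := by
  rw [app_eq π (List.ofFn x) (List.length_ofFn)]
  congr 2
  funext i
  simp

theorem app_mul (π σ : Perms) (y : List Bool) : app (π * σ) y = app π (app σ y) := by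
  rw [show app σ y = List.ofFn (σ y.length y.get) from rfl, app_ofFn]
  rfl

theorem app_one (y : List Bool) : app 1 y = y := by
  simp [app]

theorem app_inv (π : Perms) (y : List Bool) : app π⁻¹ (app π y) = y := by
  rw [← app_mul, inv_mul_cancel, app_one]

theorem app_inv' (π : Perms) (y : List Bool) : app π (app π⁻¹ y) = y := by
  rw [← app_mul, mul_inv_cancel, app_one]

theorem app_inj {π : Perms} {x y : List Bool} (h : app π x = app π y) : x = y := by
  rw [← app_inv π x, h, app_inv]

theorem app_iff {π : Perms} {x y : List Bool} : app π⁻¹ x = y ↔ x = app π y := by
  constructor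
  · rintro rfl; rw [app_inv']
  · rintro rfl; rw [app_inv]

theorem ext_at {π σ : Perms} {n : ℕ} (h : ∀ y : List Bool, y.length = n → app π y = app σ y) :
    π n = σ n := by
  ext1 x
  have := h (List.ofFn x) List.length_ofFn
  rw [app_ofFn, app_ofFn] at this
  exact List.ofFn_injective this

theorem perms_ext {π σ : Perms} (h : ∀ y : List Bool, app π y = app σ y) : π = σ := by
  funext n
  exact ext_at fun y _ => h y

theorem app_congr {π σ : Perms} {y : List Bool} (h : π y.length = σ y.length) :
    app π y = app σ y := by
  rw [app, app, h]

/-- the permutations given by an involution of the strings -/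
def mk (f : List Bool → List Bool) (hf : ∀ y, f (f y) = y) (hl : ∀ y, (f y).length = y.length) :
    Perms := fun n =>
  Function.Involutive.toPerm (fun x i => (f (List.ofFn x)).get (Fin.cast (by simp [hl]) i)) (by
    intro x
    have key : List.ofFn (fun i : Fin n => (f (List.ofFn x)).get (Fin.cast (by simp [hl]) i)) =
        f (List.ofFn x) := by
      apply List.ext_getElem
      · simp [hl]
      · intro i h1 h2
        simp
    funext i
    dsimp only
    simp only [List.get_eq_getElem, Fin.val_cast] at key ⊢
    simp only [key, hf]
    simp)

theorem app_mk (f : List Bool → List Bool) (hf : ∀ y, f (f y) = y)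
    (hl : ∀ y, (f y).length = y.length) (y : List Bool) : app (mk f hf hl) y = f y := by
  apply List.ext_getElem
  · simp [length_app, hl]
  · intro i h1 h2
    simp [app, mk]

end Pool.Agent.TH442.RP
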