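import Pool.Agent.TH442.RP.Dfn

/-! Permutations moving few strings. -/

set_option autoImplicit false

namespace Pool.Agent.TH442.RP

open Pool.Agent.NPC Pool.Agent.H620R2.Gauge Pool.Agent.H591R3.PHG Pool.Agent.H622R2
  Pool.Agent.W900.IE

theorem infinite_of_tl {A D : Oracle} {d e : ℕ} (h : TL A d (fun q : List Bool => D q = true))
    (h' : TL D e (fun q : List Bool => A q = true)) (hD : InfinitePH D) : InfinitePH A := by
  by_contra hA
  obtain ⟨K, hK⟩ := not_infinite_iff.1 hA
  have : ¬ InfinitePH D := not_infinite_iff.2 ⟨_, fun n S hS =>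
    Lev.derived h' (hK _ _ (Lev.derived h hS))⟩
  exact this hD

theorem gd_one (A : Oracle) : GD A 0 1 := by
  have h : TL A 0 (fun p : List Bool × List Bool => p.2 = p.1) :=
    TL.dec A (Poly.decide_eq (Poly.snd Poly.id) (Poly.fst Poly.id))
  exact TL.congr h fun p => by rw [app_one]

theorem infinite_one : InfinitePH (ora 1) ↔ InfinitePH (fun _ => false) := by
  have h1 : TL (fun _ => false) 1 (fun q : List Bool => ora 1 q = true) := ora_of_gd (gd_one _)
  have h2 : TL (ora 1) 0 (fun q : List Bool => (fun _ : List Bool => false) q = true) :=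
    TL.poly _ (g := fun _ : List Bool => false) (NPC.Poly.const false)
  exact ⟨fun h => infinite_of_tl h1 h2 h, fun h => infinite_of_tl h2 h1 h⟩

theorem sparse_of_moved {π : Perms} {c : ℕ} (h : ∀ n, moved π n ≤ n ^ c + c) :
    SparseS (fun q => (ora π q ^^ ora 1 q)) := by
  classical
  obtain ⟨c', hc'⟩ := poly_le (Polynomial.X * (Polynomial.X ^ c + Polynomial.C c)) 0
  refine ⟨c', fun n => ?_⟩
  refine le_trans ?_ (hc' n)
  have he : (Polynomial.X * (Polynomial.X ^ c + Polynomial.C c) : Polynomial ℕ).eval n + 0 =
      n * (n ^ c + c) := by simp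
  rw [he]
  have h1 : ((Finset.univ.filter (fun v : Fin n → Bool =>
      (ora π (List.ofFn v) ^^ ora 1 (List.ofFn v)) = true)).image List.ofFn) ⊆
      (Finset.range n).biUnion (fun l => (Finset.univ.filter
        (fun x : Fin l → Bool => π l x ≠ x)).image
          (fun x => List.replicate (n - 1 - l) true ++ false :: List.ofFn x)) := by
    intro q hq
    rw [Finset.mem_image] at hq
    obtain ⟨v, hv, rfl⟩ := hq
    rw [Finset.mem_filter] at hv
    have hv2 := hv.2
    obtain ⟨w, y, hq, hw⟩ : ∃ w y : List Bool, List.ofFn v = w ++ false :: y ∧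
        w.all id = true := by
      cases h3 : ora π (List.ofFn v) with
      | true =>
        obtain ⟨w, y, h4, h5, _⟩ := (ora_iff π _).1 h3
        exact ⟨w, y, h4, h5⟩
      | false =>
        rw [h3] at hv2
        have h6 : ora 1 (List.ofFn v) = true := by simpa using hv2
        obtain ⟨w, y, h4, h5, _⟩ := (ora_iff 1 _).1 h6
        exact ⟨w, y, h4, h5⟩
    have hw' : w = List.replicate w.length true := by
      rw [List.eq_replicate_iff]
      refine ⟨rfl, fun b hb => ?_⟩
      simpa using List.all_eq_true.1 hw b hb
    have hlen : n = w.length + (y.length + 1) := by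
      have := congrArg List.length hq
      simpa using this
    rw [Finset.mem_biUnion]
    refine ⟨y.length, Finset.mem_range.2 (by omega), ?_⟩
    rw [Finset.mem_image]
    refine ⟨y.get, ?_, ?_⟩
    · rw [Finset.mem_filter]
      refine ⟨Finset.mem_univ _, fun h3 => ?_⟩
      have h4 : app π y = y := by
        unfold app
        rw [h3]
        exact List.ofFn_get y
      rw [hq, hw', ora_append, ora_append, h4, app_one] at hv2
      simp at hv2
    · rw [List.ofFn_get, hq, show n - 1 - y.length = w.length by omega, ← hw']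
  have hmv : ∀ l, moved π l = (Finset.univ.filter (fun x : Fin l → Bool => π l x ≠ x)).card :=
    fun l => rfl
  calc (Finset.univ.filter (fun v : Fin n → Bool =>
      (ora π (List.ofFn v) ^^ ora 1 (List.ofFn v)) = true)).card
      = ((Finset.univ.filter (fun v : Fin n → Bool =>
      (ora π (List.ofFn v) ^^ ora 1 (List.ofFn v)) = true)).image List.ofFn).card :=
        (Finset.card_image_of_injective _ List.ofFn_injective).symm
    _ ≤ _ := Finset.card_le_card h1
    _ ≤ _ := Finset.card_biUnion_le
    _ ≤ ∑ l ∈ Finset.range n, (n ^ c + c) := by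
        refine Finset.sum_le_sum fun l hl => ?_
        rw [Finset.mem_range] at hl
        refine Finset.card_image_le.trans ((le_of_eq (hmv l).symm).trans ((h l).trans ?_))
        have := Nat.pow_le_pow_left hl.le c
        omega
    _ = n * (n ^ c + c) := by rw [Finset.sum_const, Finset.card_range, smul_eq_mul]

/-- **Few moved strings.** -/
theorem infinite_iff_of_moved {π : Perms} (h : ∃ c : ℕ, ∀ n, moved π n ≤ n ^ c + c) :
    InfinitePH (ora π) ↔ InfinitePH (fun _ => false) := by
  obtain ⟨c, hc⟩ := h
  exact (TH680.IE.infinite_iff (sparse_of_moved hc)).trans infinite_one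

end Pool.Agent.TH442.RP
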