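import Pool.Agent.TH442.RP.Defs

/-! The swaps, and the randomisation. -/

set_option autoImplicit false

namespace Pool.Agent.TH442.RP

open Pool.Agent.H620R2.Gauge

/-- the second bit is changed for the strings `1ew` with `c w` -/
def flip (c : Oracle) : List Bool → List Bool
  | a :: e :: w => a :: (e ^^ (a && c w)) :: w
  | y => y

theorem flip_cons (c : Oracle) (a e : Bool) (w : List Bool) :
    flip c (a :: e :: w) = a :: (e ^^ (a && c w)) :: w := rfl

theorem flip_nil (c : Oracle) : flip c [] = [] := rfl

theorem flip_one (c : Oracle) (a : Bool) : flip c [a] = [a] := rfl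

theorem flip_comp (c d : Oracle) (y : List Bool) :
    flip c (flip d y) = flip (fun w => (c w ^^ d w)) y := by
  rcases y with _ | ⟨a, _ | ⟨e, w⟩⟩
  · rfl
  · rfl
  · simp only [flip_cons]
    cases a <;> cases e <;> cases c w <;> cases d w <;> rfl

theorem flip_false (y : List Bool) : flip (fun _ => false) y = y := by
  rcases y with _ | ⟨a, _ | ⟨e, w⟩⟩
  · rfl
  · rfl
  · simp only [flip_cons]
    cases a <;> cases e <;> rfl

theorem flip_flip (c : Oracle) (y : List Bool) : flip c (flip c y) = y := by
  rw [flip_comp]
  have : (fun w => (c w ^^ c w)) = fun _ => false := by funext w; simp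
  rw [this, flip_false]

theorem length_flip (c : Oracle) (y : List Bool) : (flip c y).length = y.length := by
  rcases y with _ | ⟨a, _ | ⟨e, w⟩⟩ <;> rfl

theorem head_flip (c : Oracle) (y : List Bool) : (flip c y).head? = y.head? := by
  rcases y with _ | ⟨a, _ | ⟨e, w⟩⟩ <;> rfl

/-- the swaps as permutations -/
def P (c : Oracle) : Perms := mk (flip c) (flip_flip c) (length_flip c)

theorem app_P (c : Oracle) (y : List Bool) : app (P c) y = flip c y := app_mk _ _ _ y

theorem P_mul (c d : Oracle) : P c * P d = P (fun w => (c w ^^ d w)) := by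
  apply perms_ext
  intro y
  rw [app_mul, app_P, app_P, app_P, flip_comp]

theorem P_false : P (fun _ => false) = 1 := by
  apply perms_ext
  intro y
  rw [app_P, flip_false, app_one]

theorem P_self (c : Oracle) : P c * P c = 1 := by
  rw [P_mul]
  have : (fun w => (c w ^^ c w)) = fun _ => false := by funext w; simp
  rw [this, P_false]

theorem P_inv (c : Oracle) : (P c)⁻¹ = P c := inv_eq_of_mul_eq_one_left (P_self c)

/-- the preimage starts with `0` -/
def u (π : Perms) (x : List Bool) : Bool := (app π⁻¹ x).head? == some false

/-- exactly one of the preimages of `10w` and `11w` starts with `0` -/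
def T (π : Perms) (w : List Bool) : Bool := u π (true :: false :: w) ^^ u π (true :: true :: w)

/-- the preimage of `11w` starts with `0`, and that of `10w` does not -/
def R (π : Perms) (w : List Bool) : Bool := u π (true :: true :: w) && !u π (true :: false :: w)

/-- the swaps that are used -/
def sw (c : Oracle) (π : Perms) : Oracle := fun w => c (true :: w) && T π w

/-- the randomisation -/
def Psi (c : Oracle) (π : Perms) : Perms := P (sw c π) * π * P (sw c π)

/-- the part that is not random -/
def rho (π : Perms) : Perms := P (R π) * π * P (R π)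

theorem inv_conj (c : Oracle) (π : Perms) : (P c * π * P c)⁻¹ = P c * π⁻¹ * P c := by
  rw [mul_inv_rev, mul_inv_rev, P_inv, mul_assoc]

theorem u_conj (c : Oracle) (π : Perms) (x : List Bool) :
    u (P c * π * P c) x = u π (flip c x) := by
  unfold u
  rw [inv_conj, app_mul, app_mul, app_P, app_P, head_flip]

theorem u_Psi (c : Oracle) (π : Perms) (x : List Bool) : u (Psi c π) x = u π (flip (sw c π) x) :=
  u_conj _ _ _

theorem T_conj (c : Oracle) (π : Perms) (w : List Bool) : T (P c * π * P c) w = T π w := by
  unfold T
  rw [u_conj, u_conj, flip_cons, flip_cons]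
  cases c w
  · simp
  · simp [Bool.xor_comm]

theorem T_Psi (c : Oracle) (π : Perms) (w : List Bool) : T (Psi c π) w = T π w := T_conj _ _ _

theorem R_Psi (c : Oracle) (π : Perms) (w : List Bool) :
    R (Psi c π) w = (R π w ^^ (c (true :: w) && T π w)) := by
  unfold R
  rw [u_Psi, u_Psi, flip_cons, flip_cons]
  unfold sw T
  cases c (true :: w) <;> cases h1 : u π (true :: false :: w) <;>
    cases h2 : u π (true :: true :: w) <;> simp [h1, h2]

theorem sw_Psi (c : Oracle) (π : Perms) : sw c (Psi c π) = sw c π := by
  funext w
  unfold sw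
  rw [T_Psi]

theorem Psi_Psi (c : Oracle) (π : Perms) : Psi c (Psi c π) = π := by
  unfold Psi
  have h := sw_Psi c π
  unfold Psi at h
  rw [h]
  have e := P_self (sw c π)
  calc P (sw c π) * (P (sw c π) * π * P (sw c π)) * P (sw c π)
      = (P (sw c π) * P (sw c π)) * π * (P (sw c π) * P (sw c π)) := by group
    _ = π := by rw [e]; simp

theorem rho_Psi (c : Oracle) (π : Perms) : rho (Psi c π) = rho π := by
  unfold rho
  have h1 : P (R (Psi c π)) * P (sw c π) = P (R π) := by
    rw [P_mul]
    congr 1
    funext w
    rw [R_Psi]
    unfold sw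
    cases R π w <;> cases c (true :: w) <;> cases T π w <;> rfl
  have h2 : P (sw c π) * P (R (Psi c π)) = P (R π) := by
    rw [← h1, P_mul, P_mul]
    congr 1
    funext w
    exact Bool.xor_comm _ _
  have h3 : P (R (Psi c π)) * Psi c π * P (R (Psi c π)) =
      (P (R (Psi c π)) * P (sw c π)) * π * (P (sw c π) * P (R (Psi c π))) := by
    conv_lhs => rw [show Psi c π = P (sw c π) * π * P (sw c π) from rfl]
    rw [show R (P (sw c π) * π * P (sw c π)) = R (Psi c π) from rfl]
    group
  rw [h3, h1, h2]

theorem rho_back (π : Perms) : P (R π) * rho π * P (R π) = π := by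
  unfold rho
  have e := P_self (R π)
  calc P (R π) * (P (R π) * π * P (R π)) * P (R π)
      = (P (R π) * P (R π)) * π * (P (R π) * P (R π)) := by group
    _ = π := by rw [e]; simp

/-- the oracle with the random bits -/
def oA (π : Perms) : Oracle
  | [] => false
  | false :: q => ora (rho π) q
  | true :: w => R π w

/-- the oracle without the random bits -/
def oB (π : Perms) : Oracle
  | [] => false
  | false :: q => ora (rho π) q
  | true :: _ => false

theorem oB_Psi (c : Oracle) (π : Perms) : oB (Psi c π) = oB π := by
  funext q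
  rcases q with _ | ⟨_ | _, q⟩
  · rfl
  · show ora (rho (Psi c π)) q = ora (rho π) q
    rw [rho_Psi]
  · rfl

theorem oA_Psi (c : Oracle) (π : Perms) (q : List Bool) : oA (Psi c π) q =
    match q with
    | [] => false
    | false :: q => ora (rho π) q
    | true :: w => R π w ^^ (c (true :: w) && T π w) := by
  rcases q with _ | ⟨_ | _, q⟩
  · rfl
  · show ora (rho (Psi c π)) q = ora (rho π) q
    rw [rho_Psi]
  · exact R_Psi c π q

/-- the number of pairs at which the permutation can be changed -/
def cT (π : Perms) (m : ℕ) : ℕ :=
  (Finset.univ.filter (fun w : Fin m → Bool => T π (List.ofFn w) = true)).card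

theorem cT_Psi (c : Oracle) (π : Perms) (m : ℕ) : cT (Psi c π) m = cT π m := by
  unfold cT
  congr 1
  apply Finset.filter_congr
  intro w _
  rw [T_Psi]

end Pool.Agent.TH442.RP
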