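import Pool.Agent.TH442.RP.Law

/-! The hard languages are hard almost surely. -/

set_option autoImplicit false

namespace Pool.Agent.TH442.RP

open MeasureTheory Pool.Agent.NPC Pool.Agent.H620R2.Gauge Pool.Agent.H591R3.PHG
  Pool.Agent.W900 Pool.Agent.W900.IE Pool.Agent.TH680.IE

/-- one half -/
noncomputable def half : unitInterval := ⟨1 / 2, by norm_num, by norm_num⟩

/-- the probabilities of the bits after the randomisation -/
noncomputable def pp (π : Perms) : List Bool → unitInterval
  | [] => 0
  | false :: q => if ora (rho π) q = true then 1 else 0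
  | true :: w => if T π w = true then half else 0

/-- the bits after the randomisation -/
def fq (π : Perms) : List Bool → Bool → Bool
  | [], _ => false
  | false :: q, _ => ora (rho π) q
  | true :: w, b => R π w ^^ (b && T π w)

theorem oA_Psi' (c : Oracle) (π : Perms) : oA (Psi c π) = fun q => fq π q (c q) := by
  funext q
  rw [oA_Psi]
  rcases q with _ | ⟨_ | _, q⟩ <;> rfl

theorem bern_zero' : bern 0 = Measure.dirac false := by
  unfold bern
  simp

theorem bern_one' : bern 1 = Measure.dirac true := by
  unfold bern
  simp

theorem R_false {π : Perms} {w : List Bool} (h : T π w = false) : R π w = false := by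
  unfold T at h
  unfold R
  cases h1 : u π (true :: false :: w) <;> cases h2 : u π (true :: true :: w) <;>
    simp [h1, h2] at h ⊢

theorem map_const' (a : Bool) : (bern half).map (fun _ => a) = Measure.dirac a := by
  rw [Measure.map_const, measure_univ, one_smul]

theorem map_fq (π : Perms) (q : List Bool) : (bern half).map (fq π q) = bern (pp π q) := by
  rcases q with _ | ⟨_ | _, q⟩
  · show (bern half).map (fun _ => false) = bern 0
    rw [map_const', bern_zero']
  · show (bern half).map (fun _ => ora (rho π) q) = bern (if ora (rho π) q = true then 1 else 0)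
    rw [map_const']
    cases ora (rho π) q
    · simp [bern_zero']
    · simp [bern_one']
  · show (bern half).map (fun b => R π q ^^ (b && T π q)) = bern (if T π q = true then half else 0)
    cases hT : T π q
    · have hR := R_false hT
      have h1 : (fun b : Bool => R π q ^^ (b && false)) = fun _ => false := by
        funext b; simp [hR]
      rw [h1, map_const']
      simp [bern_zero']
    · rw [if_pos rfl]
      refine Measure.ext_of_singleton fun b => ?_
      rw [Measure.map_apply measurable_from_top (MeasurableSet.singleton b)]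
      have h1 : (fun b : Bool => R π q ^^ (b && true)) ⁻¹' {b} = {R π q ^^ b} := by
        ext a
        simp only [Set.mem_preimage, Set.mem_singleton_iff]
        cases R π q <;> cases a <;> cases b <;> simp
      rw [h1, bern_singleton, bern_singleton]
      congr 1
      unfold ber half
      cases R π q <;> cases b <;> norm_num

/-- **The law of the randomised oracle.** -/
theorem map_oA (π : Perms) :
    (indep fun _ => half).map (fun c => oA (Psi c π)) = indep (pp π) := by
  have h1 : (fun c : Oracle => oA (Psi c π)) = fun c q => fq π q (c q) := by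
    funext c
    exact oA_Psi' c π
  rw [h1]
  unfold indep
  rw [Measure.infinitePi_map_pi (μ := fun _ : List Bool => bern half)
    (fun q => measurable_from_top)]
  congr 1
  funext q
  exact map_fq π q

theorem mode_pp (π : Perms) (q : List Bool) : oB π q = modeB (pp π) q := by
  unfold modeB
  rcases q with _ | ⟨_ | _, q⟩
  · show false = decide ((1 / 2 : ℝ) < ((0 : unitInterval) : ℝ))
    norm_num
  · show ora (rho π) q = decide ((1 / 2 : ℝ) <
      ((if ora (rho π) q = true then 1 else 0 : unitInterval) : ℝ))
    cases ora (rho π) q <;> norm_num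
  · show false = decide ((1 / 2 : ℝ) < ((if T π q = true then half else 0 : unitInterval) : ℝ))
    cases T π q <;> simp [half]

theorem dev_pp (π : Perms) (m : ℕ) : (cT π m : ℝ) / 2 ≤ dev (pp π) (m + 1) := by
  classical
  unfold dev
  have h1 := Fintype.sum_equiv (Fin.consEquiv (fun _ : Fin (m + 1) => Bool))
    (fun w : Bool × (Fin m → Bool) => min ((pp π (w.1 :: List.ofFn w.2) : unitInterval) : ℝ)
      (1 - pp π (w.1 :: List.ofFn w.2)))
    (fun v : Fin (m + 1) → Bool => min ((pp π (List.ofFn v) : unitInterval) : ℝ)
      (1 - pp π (List.ofFn v))) (fun w => by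
        simp [Fin.consEquiv, List.ofFn_succ])
  rw [← h1, Fintype.sum_prod_type, Fintype.sum_bool]
  have h2 : ∀ z : List Bool, 0 ≤ min ((pp π (false :: z) : unitInterval) : ℝ)
      (1 - pp π (false :: z)) := fun z => le_min (pp π (false :: z)).2.1
        (by linarith [(pp π (false :: z)).2.2])
  have h3 : 0 ≤ ∑ v : Fin m → Bool, min ((pp π (false :: List.ofFn v) : unitInterval) : ℝ)
      (1 - pp π (false :: List.ofFn v)) := Finset.sum_nonneg fun v _ => h2 _
  have h4 : (cT π m : ℝ) / 2 = ∑ v : Fin m → Bool,
      min ((pp π (true :: List.ofFn v) : unitInterval) : ℝ)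
        (1 - pp π (true :: List.ofFn v)) := by
    unfold cT
    rw [Finset.card_filter]
    push_cast
    rw [Finset.sum_div]
    refine Finset.sum_congr rfl fun v _ => ?_
    show (if T π (List.ofFn v) = true then (1 : ℝ) else 0) / 2 =
      min (((if T π (List.ofFn v) = true then half else 0) : unitInterval) : ℝ)
        (1 - ((if T π (List.ofFn v) = true then half else 0) : unitInterval))
    by_cases h : T π (List.ofFn v) = true
    · rw [if_pos h, if_pos h]
      unfold half
      norm_num
    · rw [if_neg h, if_neg h]
      norm_num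
  linarith

/-- many pairs can be changed -/
def Large (π : Perms) : Prop :=
  ∀ c : ℕ, ∃ᶠ m : ℕ in Filter.atTop, 2 * (m + 1) ^ c ≤ cT π m

theorem many_pp {π : Perms} (h : Large π) : Many (pp π) (oB π) := by
  intro c
  have h1 : Filter.Tendsto (fun n : ℕ => n + 1) Filter.atTop Filter.atTop :=
    Filter.tendsto_add_atTop_nat 1
  apply h1.frequently
  refine (h c).mono fun m hm => ⟨?_, fun x _ => mode_pp π x⟩
  refine le_trans ?_ (dev_pp π m)
  have h2 : ((2 * (m + 1) ^ c : ℕ) : ℝ) ≤ (cT π m : ℝ) := by exact_mod_cast hm
  push_cast at h2 ⊢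
  linarith

theorem large_Psi {c : Oracle} {π : Perms} : Large (Psi c π) ↔ Large π := by
  unfold Large
  simp only [cT_Psi]

theorem meas_large {Ω : Type} [MeasurableSpace Ω] {F : Ω → Perms} (hF : Measurable F) :
    Measurable fun ω => Large (F ω) := by
  have h1 : ∀ m s : ℕ, Measurable fun ω => (s ≤ cT (F ω) m) := by
    intro m s
    refine meas_congr (fun ω => ?_) (Measurable.exists fun j : ℕ =>
      (meas_card (s := (Finset.univ : Finset (Fin m → Bool)))
        (p := fun ω w => T (F ω) (List.ofFn w) = true) (fun w => mo_T hF (List.ofFn w)) j).and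
      (measurable_const (a := (s ≤ j))))
    constructor
    · rintro ⟨j, h1, h2⟩
      unfold cT
      rw [h1]; exact h2
    · intro h1
      exact ⟨_, rfl, h1⟩
  refine meas_congr (fun ω => ?_) (Measurable.forall fun c : ℕ => Measurable.forall fun N : ℕ =>
    Measurable.exists fun m : ℕ => (measurable_const (a := (N ≤ m))).and
      (h1 m (2 * (m + 1) ^ c)))
  unfold Large
  refine forall_congr' fun c => ?_
  rw [Filter.frequently_atTop]

theorem hard_fibre {π : Perms} (h : Large π) : ∀ᵐ c ∂(indep fun _ => half), ∀ k,
    ¬ IsSig (oA (Psi c π)) k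
      (lang k (DO k (fun q => (oA (Psi c π) q ^^ oB (Psi c π) q)))) := by
  have h1 := ae_hard (pp π) (many_pp h)
  rw [← map_oA] at h1
  have h2 : Measurable (fun c : Oracle => oA (Psi c π)) := by
    rw [measurable_pi_iff]
    intro q
    have h3 : Measurable fun c : Oracle => fq π q (c q) :=
      (measurable_from_top (f := fq π q)).comp (measurable_pi_apply q)
    have h4 : (fun c : Oracle => oA (Psi c π) q) = fun c => fq π q (c q) := by
      funext c
      rw [oA_Psi']
    rw [h4]
    exact h3
  have h3 := ae_of_ae_map h2.aemeasurable h1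
  filter_upwards [h3] with c hc
  rw [oB_Psi]
  exact hc

/-- **The hard languages are hard almost surely.** -/
theorem ae_hard_perm {μ : (n : ℕ) → PMF (Equiv.Perm (Fin n → Bool))} (hμ : Inv μ) :
    ∀ᵐ π ∂(law μ), Large π → ∀ k,
      ¬ IsSig (oA π) k (lang k (DO k (fun q => (oA π q ^^ oB π q)))) := by
  have h1 : ∀ᵐ π ∂(law μ), ∀ θ : Par, π ∉ {π | Large π} ∩
      Bad (fun π : Perms => oA π) (fun π q => (oA π q ^^ oB π q)) θ.M θ.p θ.k := by
    rw [ae_all_iff]
    intro θ
    rw [MeasureTheory.ae_iff]
    simp only [not_not]
    refine null_of_Psi hμ (γ := indep fun _ => half) ?_ fun π => ?_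
    · refine MeasurableSet.inter ?_ ?_
      · exact (meas_large measurable_id).setOf
      · exact meas_bad (mo_oA measurable_id) (mo_xor (mo_oA measurable_id)
          (mo_oB measurable_id)) _ _ _
    · by_cases h : Large π
      · filter_upwards [hard_fibre h] with c hc
        rintro ⟨_, h2⟩
        exact hc θ.k (isSig_iff_bad (O := fun π : Perms => oA π)
          (D := fun π q => (oA π q ^^ oB π q)).2 ⟨_, _, h2⟩)
      · refine Filter.Eventually.of_forall fun c => ?_
        rintro ⟨h2, _⟩
        exact h (large_Psi.1 h2)
  filter_upwards [h1] with π hπ hL k hk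
  obtain ⟨M, p, h2⟩ := (isSig_iff_bad (O := fun π : Perms => oA π)
    (D := fun π q => (oA π q ^^ oB π q))).1 hk
  exact hπ ⟨M, p, k, 0⟩ ⟨hL, h2⟩

end Pool.Agent.TH442.RP
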