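import Pool.Agent.TH442.RP.MM
import Pool.Agent.TH442.RP.Flip

/-! The distribution of the permutations, and the randomisation. -/

set_option autoImplicit false

namespace Pool.Agent.TH442.RP

open MeasureTheory Pool.Agent.NPC Pool.Agent.H620R2.Gauge Pool.Agent.H591R3.PHG
  Pool.Agent.W900.IE

variable {Ω : Type} [MeasurableSpace Ω]

theorem meas_app {F : Ω → Perms} (hF : Measurable F) (x y : List Bool) :
    Measurable fun ω => (app (F ω) x = y) := by
  have h1 : Measurable fun σ : Equiv.Perm (Fin x.length → Bool) => (List.ofFn (σ x.get) = y) :=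
    measurable_from_top
  exact h1.comp ((measurable_pi_apply x.length).comp hF)

theorem measurable_of_app {F : Ω → Perms}
    (h : ∀ x y : List Bool, Measurable fun ω => (app (F ω) x = y)) : Measurable F := by
  rw [measurable_pi_iff]
  intro n
  refine measurable_to_countable' fun σ => ?_
  have h1 : Measurable fun ω => (F ω n = σ) := by
    refine meas_congr (fun ω => ?_) (Measurable.forall fun x : Fin n → Bool =>
      h (List.ofFn x) (List.ofFn (σ x)))
    constructor
    · intro h2
      ext1 x
      have := h2 x
      rw [app_ofFn] at this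
      exact List.ofFn_injective this
    · rintro rfl x
      exact app_ofFn _ _
  exact h1.setOf

theorem meas_flip {C : Ω → Oracle} (hC : MO C) (x z : List Bool) :
    Measurable fun ω => (flip (C ω) x = z) := by
  rcases x with _ | ⟨a, _ | ⟨e, w⟩⟩
  · exact (measurable_const : Measurable fun _ : Ω => (([] : List Bool) = z))
  · exact (measurable_const : Measurable fun _ : Ω => (([a] : List Bool) = z))
  · refine meas_congr (fun ω => ?_) (((hC w).and
      (measurable_const (a := (a :: (e ^^ a) :: w = z)))).or ((hC w).not.and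
      (measurable_const (a := (a :: e :: w = z)))))
    rw [flip_cons]
    cases C ω w <;> simp

theorem meas_conj {C : Ω → Oracle} {F : Ω → Perms} (hC : MO C) (hF : Measurable F) :
    Measurable fun ω => P (C ω) * F ω * P (C ω) := by
  refine measurable_of_app fun x y => ?_
  refine meas_congr (fun ω => ?_) (Measurable.exists fun z : List Bool => Measurable.exists
    fun z' : List Bool => ((meas_flip hC x z).and (meas_app hF z z')).and (meas_flip hC z' y))
  rw [app_mul, app_mul, app_P, app_P]
  constructor
  · rintro ⟨z, z', ⟨rfl, rfl⟩, h⟩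
    exact h
  · intro h
    exact ⟨_, _, ⟨rfl, rfl⟩, h⟩

theorem mo_u {F : Ω → Perms} (hF : Measurable F) : MO (fun ω => u (F ω)) := by
  intro x
  refine meas_congr (fun ω => ?_) (Measurable.exists fun y : List Bool =>
    (meas_app hF y x).and (measurable_const (a := (y.head? = some false))))
  unfold u
  rw [beq_iff_eq]
  constructor
  · rintro ⟨y, rfl, h⟩
    rw [app_inv, h]
  · intro h
    exact ⟨_, app_inv' _ _, h⟩

theorem mo_T {F : Ω → Perms} (hF : Measurable F) : MO (fun ω => T (F ω)) := by
  intro w
  exact mo_xor (O := fun ω _ => u (F ω) (true :: false :: w))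
    (O' := fun ω _ => u (F ω) (true :: true :: w)) (fun _ => mo_u hF _) (fun _ => mo_u hF _) w

theorem mo_and {O O' : Ω → Oracle} (hO : MO O) (hO' : MO O') :
    MO (fun ω q => O ω q && O' ω q) := by
  intro q
  refine meas_congr (fun ω => ?_) ((hO q).and (hO' q))
  simp

theorem mo_R {F : Ω → Perms} (hF : Measurable F) : MO (fun ω => R (F ω)) := by
  intro w
  refine meas_congr (fun ω => ?_) ((mo_u hF (true :: true :: w)).and
    (mo_u hF (true :: false :: w)).not)
  unfold R
  simp

theorem measurable_rho {F : Ω → Perms} (hF : Measurable F) : Measurable fun ω => rho (F ω) :=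
  meas_conj (mo_R hF) hF

theorem mo_ora {F : Ω → Perms} (hF : Measurable F) : MO (fun ω => ora (F ω)) := by
  intro q
  refine meas_congr (fun ω => ?_) (Measurable.exists fun z : List Bool =>
    (meas_app hF (q.dropWhile id).tail z).and
      (measurable_const (a := (z.getD (q.takeWhile id).length false = true))))
  unfold ora
  constructor
  · rintro ⟨z, rfl, h⟩
    exact h
  · intro h
    exact ⟨_, rfl, h⟩

theorem mo_oA {F : Ω → Perms} (hF : Measurable F) : MO (fun ω => oA (F ω)) := by
  intro q
  rcases q with _ | ⟨_ | _, q⟩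
  · exact (measurable_const : Measurable fun _ : Ω => (false = true))
  · exact mo_ora (measurable_rho hF) q
  · exact mo_R hF q

theorem mo_oB {F : Ω → Perms} (hF : Measurable F) : MO (fun ω => oB (F ω)) := by
  intro q
  rcases q with _ | ⟨_ | _, q⟩
  · exact (measurable_const : Measurable fun _ : Ω => (false = true))
  · exact mo_ora (measurable_rho hF) q
  · exact (measurable_const : Measurable fun _ : Ω => (false = true))

theorem mo_coin : MO (fun p : Oracle × Perms => p.1) := by
  intro q
  have h1 : Measurable fun b : Bool => (b = true) := measurable_from_top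
  exact h1.comp ((measurable_pi_apply q).comp measurable_fst)

theorem measurable_Psi : Measurable fun p : Oracle × Perms => Psi p.1 p.2 := by
  refine meas_conj (C := fun p : Oracle × Perms => sw p.1 p.2) (fun w => ?_) measurable_snd
  exact mo_and (O := fun (p : Oracle × Perms) _ => p.1 (true :: w))
    (O' := fun (p : Oracle × Perms) => T p.2) (fun _ => mo_coin (true :: w))
    (mo_T measurable_snd) w

theorem measurable_Psi_right (c : Oracle) : Measurable (Psi c) := by
  have h1 : Measurable (fun π : Perms => ((c, π) : Oracle × Perms)) := measurable_prodMk_left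
  have h2 := Measurable.comp (g := fun p : Oracle × Perms => Psi p.1 p.2) measurable_Psi h1
  exact h2

theorem measurable_Psi_left (π : Perms) : Measurable fun c => Psi c π := by
  have h1 : Measurable (fun c : Oracle => ((c, π) : Oracle × Perms)) := measurable_prodMk_right
  have h2 := Measurable.comp (g := fun p : Oracle × Perms => Psi p.1 p.2) measurable_Psi h1
  exact h2

/-! ### Locality -/

theorem flip_congr {c d : Oracle} {y : List Bool} (h : ∀ w, w.length + 2 = y.length → c w = d w) :
    flip c y = flip d y := by
  rcases y with _ | ⟨a, _ | ⟨e, w⟩⟩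
  · rfl
  · rfl
  · rw [flip_cons, flip_cons, h w rfl]

theorem T_local {π σ : Perms} {n : ℕ} (h : π n = σ n) {w : List Bool} (hw : w.length + 2 = n) :
    T π w = T σ w := by
  have h1 : ∀ x : List Bool, x.length = n → u π x = u σ x := by
    intro x hx
    unfold u
    rw [app_congr (π := π⁻¹) (σ := σ⁻¹)]
    rw [hx, Pi.inv_apply, Pi.inv_apply, h]
  unfold T
  rw [h1 _ (by simpa using hw), h1 _ (by simpa using hw)]

theorem Psi_local (c : Oracle) {π σ : Perms} {n : ℕ} (h : π n = σ n) :
    Psi c π n = Psi c σ n := by
  refine ext_at fun y hy => ?_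
  have h1 : ∀ z : List Bool, z.length = n → flip (sw c π) z = flip (sw c σ) z := by
    intro z hz
    refine flip_congr fun w hw => ?_
    unfold sw
    rw [T_local h (hw.trans hz)]
  unfold Psi
  rw [app_mul, app_mul, app_mul, app_mul, app_P, app_P, app_P, app_P, h1 y hy,
    app_congr (π := π) (σ := σ) (by rw [length_flip, hy, h]), h1]
  rw [length_app, length_flip, hy]

/-- the action on one permutation -/
def psi (c : Oracle) (n : ℕ) (σ : Equiv.Perm (Fin n → Bool)) : Equiv.Perm (Fin n → Bool) :=
  Psi c (Function.update 1 n σ) n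

theorem Psi_apply (c : Oracle) (π : Perms) (n : ℕ) : Psi c π n = psi c n (π n) :=
  Psi_local c (by simp)

theorem psi_psi (c : Oracle) (n : ℕ) (σ : Equiv.Perm (Fin n → Bool)) :
    psi c n (psi c n σ) = σ := by
  have h1 : psi c n (psi c n σ) = psi c n (Psi c (Function.update 1 n σ) n) := rfl
  rw [h1, ← Psi_apply, Psi_Psi, Function.update_self]

/-- invariance under conjugation -/
def Inv (μ : (n : ℕ) → PMF (Equiv.Perm (Fin n → Bool))) : Prop :=
  ∀ (n : ℕ) (σ τ : Equiv.Perm (Fin n → Bool)), μ n (τ * σ * τ⁻¹) = μ n σ

variable {μ : (n : ℕ) → PMF (Equiv.Perm (Fin n → Bool))}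

theorem psi_inv (hμ : Inv μ) (c : Oracle) (n : ℕ) (σ : Equiv.Perm (Fin n → Bool)) :
    μ n (psi c n σ) = μ n σ := by
  have h1 : psi c n σ = P (sw c (Function.update 1 n σ)) n * σ *
      (P (sw c (Function.update 1 n σ)) n)⁻¹ := by
    unfold psi Psi
    have h2 : (P (sw c (Function.update 1 n σ)) n)⁻¹ = P (sw c (Function.update 1 n σ)) n := by
      rw [← Pi.inv_apply, P_inv]
    rw [h2]
    simp
  rw [h1, hμ]

theorem map_psi (hμ : Inv μ) (c : Oracle) (n : ℕ) :
    (μ n).toMeasure.map (psi c n) = (μ n).toMeasure := by
  refine Measure.ext_of_singleton fun σ => ?_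
  rw [Measure.map_apply measurable_from_top (MeasurableSet.singleton σ)]
  have h1 : psi c n ⁻¹' {σ} = {psi c n σ} := by
    ext τ
    simp only [Set.mem_preimage, Set.mem_singleton_iff]
    constructor
    · rintro rfl; rw [psi_psi]
    · rintro rfl; rw [psi_psi]
  rw [h1, PMF.toMeasure_apply_singleton _ _ (MeasurableSet.singleton _),
    PMF.toMeasure_apply_singleton _ _ (MeasurableSet.singleton _), psi_inv hμ]

instance : IsProbabilityMeasure (law μ) := by
  unfold law
  infer_instance

theorem map_Psi (hμ : Inv μ) (c : Oracle) : (law μ).map (Psi c) = law μ := by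
  have h1 : Psi c = fun π n => psi c n (π n) := by
    funext π n
    exact Psi_apply c π n
  unfold law
  rw [h1, Measure.infinitePi_map_pi (μ := fun n => (μ n).toMeasure)
    (fun n => measurable_from_top)]
  congr 1
  funext n
  exact map_psi hμ c n

/-- **The transfer.** -/
theorem null_of_Psi (hμ : Inv μ) {γ : Measure Oracle} [IsProbabilityMeasure γ] {E : Set Perms}
    (hE : MeasurableSet E) (h : ∀ π, ∀ᵐ c ∂γ, Psi c π ∉ E) : law μ E = 0 := by
  set G : Set (Oracle × Perms) := (fun p => Psi p.1 p.2) ⁻¹' E with hG
  have hGm : MeasurableSet G := measurable_Psi hE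
  have h1 : (γ.prod (law μ)) G = law μ E := by
    rw [Measure.prod_apply hGm]
    have h2 : ∀ c, law μ (Prod.mk c ⁻¹' G) = law μ E := by
      intro c
      have h3 : Prod.mk c ⁻¹' G = Psi c ⁻¹' E := rfl
      rw [h3, ← Measure.map_apply (measurable_Psi_right c) hE, map_Psi hμ]
    simp only [h2]
    simp
  have h4 : (γ.prod (law μ)) G = 0 := by
    rw [Measure.prod_apply_symm hGm]
    have h5 : ∀ π, γ ((fun c => (c, π)) ⁻¹' G) = 0 := by
      intro π
      have h6 := h π
      rw [ae_iff] at h6
      have h7 : ((fun c => (c, π)) ⁻¹' G) = {c | ¬ Psi c π ∉ E} := by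
        ext c
        simp [hG]
      rw [h7, h6]
    simp only [h5]
    simp
  rw [← h1, h4]

end Pool.Agent.TH442.RP
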