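import Pool.Agent.TH680.IE.Law

/-! Measurability of the events about computations relative to a random oracle. -/

set_option autoImplicit false

namespace Pool.Agent.TH442.RP

open MeasureTheory Pool.Agent.NPC Pool.Agent.H620R2.Gauge Pool.Agent.H591R3.PHG
  Pool.Agent.W900.IE

variable {Ω : Type} [MeasurableSpace Ω]

/-- the bits of the oracle are measurable -/
def MO (O : Ω → Oracle) : Prop := ∀ q : List Bool, Measurable fun ω => (O ω q = true)

theorem meas_congr {p q : Ω → Prop} (h : ∀ ω, p ω ↔ q ω) (hp : Measurable p) : Measurable q := by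
  have : p = q := funext fun ω => propext (h ω)
  rwa [← this]

theorem meas_false {O : Ω → Oracle} (hO : MO O) (q : List Bool) :
    Measurable fun ω => (O ω q = false) :=
  meas_congr (fun ω => by simp) (hO q).not

theorem meas_run {O : Ω → Oracle} (hO : MO O) (M : Alg) (x : List Bool) (o : Option (List Bool)) :
    ∀ (n : ℕ) (a : List Bool), Measurable fun ω => (M.run (O ω) x n a = o) := by
  intro n
  induction n with
  | zero =>
    intro a
    exact (measurable_const : Measurable fun _ : Ω => ((none : Option (List Bool)) = o))
  | succ n ih =>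
    intro a
    rcases hMD : M.D (pairBits x a) with _ | ⟨_ | _, q⟩
    · refine meas_congr (fun ω => ?_) (measurable_const (a := (some ([] : List Bool) = o)))
      rw [Alg.run, hMD]
    · refine meas_congr (fun ω => ?_) (((hO q).and (ih (a ++ [true]))).or
        ((meas_false hO q).and (ih (a ++ [false]))))
      rw [Alg.run, hMD]
      dsimp only
      cases O ω q <;> simp
    · refine meas_congr (fun ω => ?_) (measurable_const (a := (some q = o)))
      rw [Alg.run, hMD]

theorem meas_out {O : Ω → Oracle} (hO : MO O) (M : Alg) (x : List Bool)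
    (o : Option (List Bool)) : Measurable fun ω => (M.out (O ω) x = o) := meas_run hO M x o _ _

theorem meas_quant (m : ℕ) {V : Ω → List Bool → List Bool}
    (hV : ∀ y, Measurable fun ω => (V ω y = [true])) : ∀ (k : ℕ) (b : Bool) (x : List Bool),
    Measurable fun ω => Quant m (V ω) k b x := by
  intro k
  induction k with
  | zero => intro b x; exact hV x
  | succ k ih =>
    intro b x
    cases b with
    | true =>
      exact Measurable.exists fun w => (measurable_const (a := (w.length ≤ m))).and
        (ih false (pairBits w x))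
    | false =>
      exact Measurable.forall fun w => (measurable_const (a := (w.length ≤ m))).imp
        (ih true (pairBits w x))

theorem mo_bitv {O : Ω → Oracle} (hO : MO O) (w : ℕ) : MO (fun ω => bitv (O ω) w) := by
  intro q
  refine meas_congr (fun ω => ?_) (Measurable.forall fun l : ℕ =>
    (measurable_const (a := (l < w))).imp (meas_false hO (q ++ List.replicate l true)))
  unfold bitv
  rw [decide_eq_true_iff]

theorem mo_up {O : Ω → Oracle} (hO : MO O) (a : ℕ) : MO (fun ω => up a (O ω)) := by
  intro q
  refine meas_congr (fun ω => ?_) (Measurable.forall fun i : ℕ =>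
    (measurable_const (a := (i < 2 ^ a))).imp (meas_false hO (q ++ bitsOf a i)))
  unfold up
  rw [decide_eq_true_iff]

theorem mo_foldr {O : Ω → Oracle} (hO : MO O) : ∀ l : List ℕ, MO (fun ω => l.foldr up (O ω)) := by
  intro l
  induction l with
  | nil => exact hO
  | cons a l ih => exact mo_up ih a

theorem meas_lang {O : Ω → Oracle} (hO : MO O) (k : ℕ) (x : List Bool) :
    Measurable fun ω => (x ∈ lang k (O ω)) := by
  have h := meas_false (mo_foldr (mo_bitv hO (unpair (parse (k + 1) x).2).1.length)
    (parse (k + 1) x).1) x
  exact h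

theorem meas_card {ι : Type} {s : Finset ι} {p : Ω → ι → Prop} [∀ ω, DecidablePred (p ω)]
    (hp : ∀ i, Measurable fun ω => p ω i) (n : ℕ) :
    Measurable fun ω => ((s.filter (p ω)).card = n) := by
  classical
  induction s using Finset.induction_on generalizing n with
  | empty => simp
  | insert a s ha ih =>
    have e : ∀ ω, ((insert a s).filter (p ω)).card =
        (if p ω a then 1 else 0) + (s.filter (p ω)).card := by
      intro ω
      rw [Finset.filter_insert]
      split_ifs with h
      · rw [Finset.card_insert_of_notMem (by simp [ha]), add_comm]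
      · rw [zero_add]
    refine meas_congr (fun ω => ?_) (((hp a).and (Measurable.exists fun m : ℕ =>
      (ih m).and (measurable_const (a := (1 + m = n))))).or ((hp a).not.and (ih n)))
    rw [e]
    by_cases h : p ω a
    · simp only [h, true_and, if_true, not_true_eq_false, false_and, or_false]
      constructor
      · rintro ⟨m, h1, h2⟩
        rw [h1, h2]
      · intro h1
        exact ⟨_, rfl, h1⟩
    · simp [h]

theorem meas_cntE {O : Ω → Oracle} (hO : MO O) (ε : Entry) (τ : List Bool) (n : ℕ) :
    Measurable fun ω => (cntE (O ω) ε τ = n) := by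
  unfold cntE
  exact meas_card (fun i => (measurable_const (a := (inCell ε τ (str i) = true))).and
    (hO (str i))) n

theorem mo_DO {O : Ω → Oracle} (hO : MO O) (k : ℕ) : MO (fun ω => DO k (O ω)) := by
  intro s
  have key : ∀ (E : List Entry) (τ : List Bool), Measurable fun ω => (Dl (O ω) E τ = true) := by
    intro E τ
    have h1 : ∀ l : ℕ, Measurable fun ω => (Odd (cntE (O ω) (E.getD l (0, 0, [])) τ) ∧
        cntE (O ω) (E.getD l (0, 0, [])) τ ≤ 8 * E.length) := by
      intro l
      refine meas_congr (fun ω => ?_) (Measurable.exists fun m : ℕ =>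
        (meas_cntE hO (E.getD l (0, 0, [])) τ m).and
          (measurable_const (a := (Odd m ∧ m ≤ 8 * E.length))))
      constructor
      · rintro ⟨m, h1, h2⟩
        rw [h1]; exact h2
      · intro h1
        exact ⟨_, rfl, h1⟩
    refine meas_congr (fun ω => ?_) (Measurable.exists fun m : ℕ =>
      (meas_card (s := Finset.range E.length) h1 m).and (measurable_const (a := (Odd m))))
    unfold Dl
    rw [decide_eq_true_iff]
    constructor
    · rintro ⟨m, h1, h2⟩
      convert h2 using 1
    · intro h1
      exact ⟨_, rfl, h1⟩
  exact key _ _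

theorem mo_xor {O O' : Ω → Oracle} (hO : MO O) (hO' : MO O') :
    MO (fun ω q => (O ω q ^^ O' ω q)) := by
  intro q
  refine meas_congr (fun ω => ?_) (((hO q).iff (hO' q)).not)
  cases h : O ω q <;> cases h' : O' ω q <;> simp [h, h']

/-- the algorithm decides the hard language with `k` quantifiers -/
def Bad (O D : Ω → Oracle) (M : Alg) (p : Polynomial ℕ) (k : ℕ) : Set Ω :=
  {ω | (∀ x, (M.out (O ω) x).isSome = true) ∧ ∀ x, x ∈ lang k (DO k (D ω)) ↔
    Quant (p.eval x.length) (fun y => (M.out (O ω) y).getD []) k true x}

theorem meas_bad {O D : Ω → Oracle} (hO : MO O) (hD : MO D) (M : Alg) (p : Polynomial ℕ)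
    (k : ℕ) : MeasurableSet (Bad O D M p k) := by
  unfold Bad
  rw [measurableSet_setOfPred]
  refine Measurable.and (Measurable.forall fun x => ?_) (Measurable.forall fun x =>
    (meas_lang (mo_DO hD k) k x).iff (meas_quant _ (fun y => ?_) k true x))
  · refine meas_congr (fun ω => ?_) (meas_out hO M x none).not
    cases M.out (O ω) x <;> simp
  · refine meas_congr (fun ω => ?_) (meas_out hO M y (some [true]))
    cases M.out (O ω) y <;> simp

omit [MeasurableSpace Ω] in
theorem isSig_iff_bad {O D : Ω → Oracle} {k : ℕ} {ω : Ω} :
    IsSig (O ω) k (lang k (DO k (D ω))) ↔ ∃ (M : Alg) (p : Polynomial ℕ), ω ∈ Bad O D M p k := by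
  constructor
  · rintro ⟨V, p, ⟨M, hM⟩, hL⟩
    refine ⟨M, p, fun x => by rw [hM]; rfl, fun x => ?_⟩
    rw [hL]
    have : (fun y => (M.out (O ω) y).getD []) = V := by
      funext y
      rw [hM]; rfl
    rw [this]
  · rintro ⟨M, p, h1, h2⟩
    refine ⟨fun y => (M.out (O ω) y).getD [], p, ⟨M, fun x => ?_⟩, h2⟩
    have := h1 x
    rw [Option.isSome_iff_exists] at this
    obtain ⟨z, hz⟩ := this
    show M.out (O ω) x = some ((M.out (O ω) x).getD [])
    rw [hz]
    rfl

end Pool.Agent.TH442.RP
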