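import Pool.Agent.TH442.RP.Many
import Pool.Agent.TH442.RP.Hard
import Pool.Agent.TH442.RP.Easy

/-! The law. -/

set_option autoImplicit false

namespace Pool.Agent.TH442.RP

open MeasureTheory ProbabilityTheory Pool.Agent.H620R2.Gauge Pool.Agent.W900.IE

variable {μ : (n : ℕ) → PMF (Equiv.Perm (Fin n → Bool))}

theorem law_eval (n : ℕ) (t : Set (Equiv.Perm (Fin n → Bool))) :
    law μ {π | π n ∈ t} = (μ n).toMeasure t := by
  have h1 := measurePreserving_eval_infinitePi (fun n => (μ n).toMeasure) n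
  exact h1.measure_preimage (s := t) (MeasurableSet.of_discrete (s := t)).nullMeasurableSet

theorem meas_ev (n : ℕ) (t : Set (Equiv.Perm (Fin n → Bool))) :
    MeasurableSet {π : Perms | π n ∈ t} :=
  measurable_pi_apply n (show MeasurableSet t from trivial)

/-- a family of events for all the lengths -/
def extd (t : (m : ℕ) → Set (Equiv.Perm (Fin (m + 2) → Bool))) :
    (n : ℕ) → Set (Equiv.Perm (Fin n → Bool))
  | 0 => Set.univ
  | 1 => Set.univ
  | m + 2 => t m

theorem indep_ev (t : (m : ℕ) → Set (Equiv.Perm (Fin (m + 2) → Bool))) :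
    iIndepSet (fun m => {π : Perms | π (m + 2) ∈ t m}) (law μ) := by
  rw [iIndepSet_iff_meas_biInter (fun m => meas_ev (m + 2) (t m))]
  intro S
  have h1 : (⋂ m ∈ S, {π : Perms | π (m + 2) ∈ t m}) =
      Set.pi ((S.image (fun m => m + 2) : Finset ℕ) : Set ℕ) (extd t) := by
    ext π
    simp only [Set.mem_iInter, Set.mem_ofPred_eq, Set.mem_pi, Finset.coe_image, Set.mem_image,
      Finset.mem_coe, forall_exists_index, and_imp, forall_apply_eq_imp_iff₂]
    rfl
  rw [h1]
  conv_lhs => unfold law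
  rw [Measure.infinitePi_pi (μ := fun n => (μ n).toMeasure) (fun _ _ => trivial),
    Finset.prod_image (fun a _ b _ h => by simpa using h)]
  refine Finset.prod_congr rfl fun m _ => ?_
  rw [law_eval]
  rfl

theorem poly_of_eventually {π : Perms} {c : ℕ}
    (h : ∀ᶠ n : ℕ in Filter.atTop, ¬ n ^ c ≤ moved π n) :
    ∃ c : ℕ, ∀ n, moved π n ≤ n ^ c + c := by
  obtain ⟨m₀, hm₀⟩ := Filter.eventually_atTop.1 h
  obtain ⟨c', hc'⟩ := poly_le (Polynomial.X ^ c) (2 ^ m₀)
  refine ⟨c', fun n => le_trans ?_ (hc' n)⟩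
  have he : (Polynomial.X ^ c : Polynomial ℕ).eval n = n ^ c := by simp
  rw [he]
  rcases Nat.lt_or_ge n m₀ with h1 | h1
  · have h2 : moved π n ≤ 2 ^ n := by
      unfold moved
      refine (Finset.card_le_univ _).trans ?_
      simp
    have h3 : 2 ^ n ≤ 2 ^ m₀ := Nat.pow_le_pow_right (by norm_num) h1.le
    omega
  · exact le_trans (le_of_lt (not_le.1 (hm₀ n h1))) (Nat.le_add_right _ _)

/-- **Few moved strings.** -/
theorem ae_poly {c : ℕ}
    (h : (∑' n : ℕ, (μ n).toMeasure {σ | n ^ c ≤ σ.support.card}) ≠ ⊤) :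
    ∀ᵐ π ∂(law μ), ∃ c : ℕ, ∀ n, moved π n ≤ n ^ c + c := by
  have h1 : (∑' n : ℕ, law μ {π | π n ∈ {σ | n ^ c ≤ σ.support.card}}) ≠ ⊤ := by
    simp only [law_eval]
    exact h
  filter_upwards [ae_eventually_notMem h1] with π hπ
  exact poly_of_eventually hπ

/-- **Many moved strings.** -/
theorem ae_large (hμ : Inv μ)
    (h : ∀ c : ℕ, (∑' n : ℕ, (μ n).toMeasure {σ | n ^ c ≤ σ.support.card}) = ⊤) :
    ∀ᵐ π ∂(law μ), Large π := by
  have hm : ∀ c : ℕ,
      (∑' m : ℕ, (μ (m + 2)).toMeasure {σ | (m + 2) ^ c ≤ mv σ}) = ⊤ := by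
    intro c
    by_contra hcon
    have h1 := h c
    rw [tsum_eq_zero_add' ENNReal.summable, tsum_eq_zero_add' ENNReal.summable,
      ENNReal.add_eq_top, ENNReal.add_eq_top] at h1
    rcases h1 with h1 | h1 | h1
    · exact measure_ne_top _ _ h1
    · exact measure_ne_top _ _ h1
    · exact hcon h1
  have key : ∀ c : ℕ, ∀ᵐ π ∂(law μ), ∃ᶠ m : ℕ in Filter.atTop,
      π ∈ {π : Perms | π (m + 2) ∈ {σ | (m + 2) ^ (c + 6) ≤ 20 * G m σ}} := by
    intro c
    have h1 : (∑' m : ℕ, law μ {π | π (m + 2) ∈ {σ | (m + 2) ^ (c + 6) ≤ 20 * G m σ}}) = ⊤ := by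
      by_contra hcon
      have h2 : (∑' m : ℕ, (μ (m + 2)).toMeasure {σ | (m + 2) ^ (c + 6) ≤ mv σ}) ≤
          ∑' m : ℕ, (20 * law μ {π | π (m + 2) ∈ {σ | (m + 2) ^ (c + 6) ≤ 20 * G m σ}} +
            if m = 0 then 1 else 0) := by
        refine ENNReal.tsum_le_tsum fun m => ?_
        rw [law_eval]
        rcases Nat.eq_zero_or_pos m with h3 | h3
        · rw [if_pos h3]
          exact le_add_left prob_le_one
        · rw [if_neg h3.ne', add_zero]
          exact prob hμ h3 (Nat.one_le_pow _ _ (by omega))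
      rw [hm (c + 6), ENNReal.tsum_add, ENNReal.tsum_mul_left, tsum_ite_eq] at h2
      exact ENNReal.add_ne_top.2 ⟨ENNReal.mul_ne_top (by norm_num) hcon, ENNReal.one_ne_top⟩
        (top_le_iff.1 h2)
    have h2 := measure_limsup_eq_one (fun m => meas_ev (m + 2) _) (indep_ev
      (fun m => {σ | (m + 2) ^ (c + 6) ≤ 20 * G m σ})) h1
    have h3 := (mem_ae_iff_prob_eq_one (MeasurableSet.measurableSet_limsup
      (fun m => meas_ev (m + 2) _))).2 h2
    filter_upwards [h3] with π hπ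
    rw [Filter.mem_limsup_iff_frequently_mem] at hπ
    exact hπ
  rw [← ae_all_iff] at key
  filter_upwards [key] with π hπ
  intro c
  refine (hπ c).mono fun m hm => ?_
  have h4 : (m + 2) ^ (c + 6) ≤ 20 * G m (π (m + 2)) := hm
  rw [cT_eq]
  have h5 : (m + 1) ^ c * 40 ≤ (m + 2) ^ (c + 6) := by
    rw [pow_add]
    refine Nat.mul_le_mul (Nat.pow_le_pow_left (by omega) _) ?_
    calc 40 ≤ 2 ^ 6 := by norm_num
      _ ≤ (m + 2) ^ 6 := Nat.pow_le_pow_left (by omega) _
  omega

/-- **Many moved strings: the hierarchy is infinite.** -/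
theorem ae_infinite (hμ : Inv μ)
    (h : ∀ c : ℕ, (∑' n : ℕ, (μ n).toMeasure {σ | n ^ c ≤ σ.support.card}) = ⊤) :
    ∀ᵐ π ∂(law μ), InfinitePH (ora π) := by
  filter_upwards [ae_large hμ h, ae_hard_perm hμ] with π h1 h2
  exact infinite_of_hard (h2 h1)

/-- **The two cases.** -/
theorem ae_cases (hμ : Inv μ) :
    ∀ᵐ π ∂(law μ), (∃ c : ℕ, ∀ n, moved π n ≤ n ^ c + c) ∨ Large π := by
  by_cases h : ∃ c : ℕ, (∑' n : ℕ, (μ n).toMeasure {σ | n ^ c ≤ σ.support.card}) ≠ ⊤
  · obtain ⟨c, hc⟩ := h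
    filter_upwards [ae_poly hc] with π hπ
    exact Or.inl hπ
  · push Not at h
    filter_upwards [ae_large hμ h] with π hπ
    exact Or.inr hπ

/-- **Random permutations.** -/
theorem main (hμ : Inv μ) : ∀ᵐ π ∂(law μ),
    (InfinitePH (ora π) ↔
      (¬ ∃ c : ℕ, ∀ n, moved π n ≤ n ^ c + c) ∨ InfinitePH fun _ => false) := by
  filter_upwards [ae_cases hμ, ae_hard_perm hμ] with π h1 h2
  by_cases h : ∃ c : ℕ, ∀ n, moved π n ≤ n ^ c + c
  · rw [infinite_iff_of_moved h]
    constructor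
    · exact Or.inr
    · rintro (h' | h')
      · exact absurd h h'
      · exact h'
  · have h3 := infinite_of_hard (h2 (h1.resolve_left h))
    exact ⟨fun _ => Or.inl h, fun _ => h3⟩

/-- **Few moved strings.** -/
theorem ae_iff_few {c : ℕ}
    (h : (∑' n : ℕ, (μ n).toMeasure {σ | n ^ c ≤ σ.support.card}) ≠ ⊤) :
    ∀ᵐ π ∂(law μ), (InfinitePH (ora π) ↔ InfinitePH fun _ => false) := by
  filter_upwards [ae_poly h] with π hπ
  exact infinite_iff_of_moved hπ

/-! ### Uniformly random permutations -/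

/-- all the bits are changed -/
def neg (n : ℕ) : Equiv.Perm (Fin n → Bool) :=
  Function.Involutive.toPerm (fun x i => !(x i)) (fun x => by funext i; simp)

theorem neg_ne {n : ℕ} (hn : 1 ≤ n) (x : Fin n → Bool) : neg n x ≠ x := by
  intro h
  have h1 : (!(x ⟨0, hn⟩)) = x ⟨0, hn⟩ := congrFun h ⟨0, hn⟩
  simp at h1

theorem support_add {n : ℕ} (hn : 1 ≤ n) (σ : Equiv.Perm (Fin n → Bool)) :
    2 ^ n ≤ σ.support.card + (neg n * σ).support.card := by
  classical
  have h1 : (Finset.univ : Finset (Fin n → Bool)) ⊆ σ.support ∪ (neg n * σ).support := by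
    intro x _
    rw [Finset.mem_union, Equiv.Perm.mem_support, Equiv.Perm.mem_support]
    by_contra hcon
    push Not at hcon
    have h2 : neg n (σ x) = x := hcon.2
    rw [hcon.1] at h2
    exact neg_ne hn x h2
  have h2 := (Finset.card_le_card h1).trans (Finset.card_union_le _ _)
  simpa using h2

theorem uniform_half {n : ℕ} (hn : 1 ≤ n) :
    1 / 2 ≤ (PMF.uniformOfFintype (Equiv.Perm (Fin n → Bool))).toMeasure
      {σ | 2 ^ n ≤ 2 * σ.support.card} := by
  set ν := (PMF.uniformOfFintype (Equiv.Perm (Fin n → Bool))).toMeasure with hν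
  set E : Set (Equiv.Perm (Fin n → Bool)) := {σ | 2 ^ n ≤ 2 * σ.support.card} with hE
  have h1 : ν.map (fun σ => neg n * σ) = ν := by
    refine Measure.ext_of_singleton fun σ => ?_
    rw [Measure.map_apply measurable_from_top (MeasurableSet.singleton σ)]
    have h1 : (fun σ => neg n * σ) ⁻¹' {σ} = {(neg n)⁻¹ * σ} := by
      ext τ
      simp only [Set.mem_preimage, Set.mem_singleton_iff]
      rw [eq_inv_mul_iff_mul_eq]
    rw [h1, hν, PMF.toMeasure_apply_singleton _ _ (MeasurableSet.singleton _),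
      PMF.toMeasure_apply_singleton _ _ (MeasurableSet.singleton _)]
    simp
  have h2 : ν ((fun σ => neg n * σ) ⁻¹' E) = ν E := by
    rw [← Measure.map_apply measurable_from_top (show MeasurableSet E from trivial), h1]
  have h3 : (1 : ENNReal) ≤ ν E + ν E := by
    have h4 : Set.univ ⊆ E ∪ (fun σ => neg n * σ) ⁻¹' E := by
      intro σ _
      have h5 := support_add hn σ
      by_cases h6 : 2 ^ n ≤ 2 * σ.support.card
      · exact Or.inl h6
      · refine Or.inr ?_
        show 2 ^ n ≤ 2 * (neg n * σ).support.card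
        omega
    calc (1 : ENNReal) = ν Set.univ := by rw [measure_univ]
      _ ≤ ν (E ∪ (fun σ => neg n * σ) ⁻¹' E) := measure_mono h4
      _ ≤ ν E + ν ((fun σ => neg n * σ) ⁻¹' E) := measure_union_le _ _
      _ = ν E + ν E := by rw [h2]
  rw [← two_mul] at h3
  rw [ENNReal.div_le_iff (by norm_num) (by norm_num), mul_comm]
  exact h3

theorem pow_le_two_pow (c : ℕ) : ∃ n₀ : ℕ, ∀ n, n₀ ≤ n → 2 * n ^ c ≤ 2 ^ n := by
  have h := (tendsto_pow_const_div_const_pow_of_one_lt c (r := (2 : ℝ)) (by norm_num))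
  have h3 := h.const_mul (2 : ℝ)
  simp only [mul_zero] at h3
  obtain ⟨l₀, hl₀⟩ := Filter.eventually_atTop.1
    (h3.eventually (ge_mem_nhds (show (0 : ℝ) < 1 by norm_num)))
  refine ⟨l₀, fun l hl => ?_⟩
  have h5 := hl₀ l hl
  have h6 : (0 : ℝ) < 2 ^ l := by positivity
  rw [← mul_div_assoc, div_le_one h6] at h5
  exact_mod_cast h5

/-- **Uniformly random permutations.** -/
theorem ae_uniform : ∀ᵐ π ∂(law fun n => PMF.uniformOfFintype (Equiv.Perm (Fin n → Bool))),
    InfinitePH (ora π) := by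
  refine ae_infinite (fun n σ τ => by simp) fun c => ?_
  by_contra hcon
  have h1 := ENNReal.tendsto_atTop_zero_of_tsum_ne_top hcon
  obtain ⟨n₀, hn₀⟩ := pow_le_two_pow c
  have h2 := h1.eventually (gt_mem_nhds (show (0 : ENNReal) < 1 / 2 by norm_num))
  obtain ⟨n, hn, hn'⟩ := (h2.and (Filter.eventually_ge_atTop (max n₀ 1))).exists
  have h3 := uniform_half (n := n) (le_trans (le_max_right _ _) hn')
  have h4 := hn₀ n (le_trans (le_max_left _ _) hn')
  have h5 : {σ : Equiv.Perm (Fin n → Bool) | 2 ^ n ≤ 2 * σ.support.card} ⊆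
      {σ | n ^ c ≤ σ.support.card} := by
    intro σ hσ
    have : 2 ^ n ≤ 2 * σ.support.card := hσ
    show n ^ c ≤ σ.support.card
    omega
  exact absurd (h3.trans (measure_mono h5)) (not_le.2 hn)

end Pool.Agent.TH442.RP
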