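import Pool.Agent.TH442.RP.Law
import Pool.Agent.TH442.RP.Count

/-! Many moved strings give many pairs. -/

set_option autoImplicit false

namespace Pool.Agent.TH442.RP

open MeasureTheory ProbabilityTheory Pool.Agent.H620R2.Gauge

/-- the strings that start with `0` -/
def Y0 (m : ℕ) : Finset (Fin (m + 2) → Bool) := Finset.univ.filter (fun x => x 0 = false)

/-- the string `1ew` -/
def pt {m : ℕ} (e : Bool) (w : Fin m → Bool) : Fin (m + 2) → Bool :=
  Fin.cons true (Fin.cons e w)

theorem ofFn_pt {m : ℕ} (e : Bool) (w : Fin m → Bool) :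
    List.ofFn (pt e w) = true :: e :: List.ofFn w := by
  unfold pt
  simp [List.ofFn_succ]

theorem pt_notMem {m : ℕ} (e : Bool) (w : Fin m → Bool) : pt e w ∉ Y0 m := by
  unfold Y0 pt
  simp

theorem pt_inj {m : ℕ} {e e' : Bool} {w w' : Fin m → Bool} (h : pt e w = pt e' w') :
    e = e' ∧ w = w' := by
  have h1 := congrArg List.ofFn h
  rw [ofFn_pt, ofFn_pt] at h1
  simp only [List.cons.injEq, true_and] at h1
  exact ⟨h1.1, List.ofFn_injective h1.2⟩

theorem card_Y0 (m : ℕ) : (Y0 m).card = 2 ^ (m + 1) := by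
  have h1 : Y0 m = (Finset.univ : Finset (Fin (m + 1) → Bool)).image
      (fun v => (Fin.cons false v : Fin (m + 2) → Bool)) := by
    ext x
    unfold Y0
    simp only [Finset.mem_filter, Finset.mem_univ, true_and, Finset.mem_image]
    constructor
    · intro h
      refine ⟨Fin.tail x, ?_⟩
      rw [← h]
      exact Fin.cons_self_tail x
    · rintro ⟨v, rfl⟩
      rfl
  rw [h1, Finset.card_image_of_injective _ (Fin.cons_right_injective _)]
  simp

/-- the number of usable pairs, from the permutation -/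
def G (m : ℕ) (σ : Equiv.Perm (Fin (m + 2) → Bool)) : ℕ :=
  (Finset.univ.filter (fun w : Fin m → Bool =>
    ¬ (σ⁻¹ (pt false w) ∈ Y0 m ↔ σ⁻¹ (pt true w) ∈ Y0 m))).card

theorem u_pt (π : Perms) {m : ℕ} (e : Bool) (w : Fin m → Bool) :
    u π (true :: e :: List.ofFn w) = true ↔ (π (m + 2))⁻¹ (pt e w) ∈ Y0 m := by
  unfold u Y0
  rw [← ofFn_pt, app_ofFn]
  simp [List.ofFn_succ]

theorem cT_eq (π : Perms) (m : ℕ) : cT π m = G m (π (m + 2)) := by
  unfold cT G
  congr 1
  apply Finset.filter_congr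
  intro w _
  rw [← u_pt, ← u_pt]
  unfold T
  cases u π (true :: false :: List.ofFn w) <;> cases u π (true :: true :: List.ofFn w) <;> simp

/-- the number of moved strings, from the permutation -/
def mv {n : ℕ} (σ : Equiv.Perm (Fin n → Bool)) : ℕ :=
  (Finset.univ.filter (fun x : Fin n → Bool => σ x ≠ x)).card

theorem mv_conj {n : ℕ} (τ σ : Equiv.Perm (Fin n → Bool)) : mv (τ * σ * τ⁻¹) = mv σ := by
  unfold mv
  refine Finset.card_bij' (fun x _ => τ⁻¹ x) (fun x _ => τ x) ?_ ?_ ?_ ?_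
  · intro x hx
    rw [Finset.mem_filter] at hx ⊢
    refine ⟨Finset.mem_univ _, fun h => hx.2 ?_⟩
    show τ (σ (τ⁻¹ x)) = x
    rw [h]
    simp
  · intro x hx
    rw [Finset.mem_filter] at hx ⊢
    refine ⟨Finset.mem_univ _, fun h => hx.2 ?_⟩
    have h1 : τ (σ (τ⁻¹ (τ x))) = τ x := h
    have h2 := τ.injective h1
    simpa using h2
  · intro x _
    simp
  · intro x _
    simp

theorem G_le (m : ℕ) (σ : Equiv.Perm (Fin (m + 2) → Bool)) : G m σ ≤ mv σ := by
  classical
  unfold G mv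
  refine Finset.card_le_card_of_injOn
    (fun w => if σ⁻¹ (pt false w) ∈ Y0 m then pt false w else pt true w) ?_ ?_
  · intro w hw
    simp only [Finset.coe_filter, Finset.mem_univ, true_and, Set.mem_ofPred_eq] at hw ⊢
    have key : ∀ e : Bool, σ⁻¹ (pt e w) ∈ Y0 m → σ (pt e w) ≠ pt e w := by
      intro e h1 h2
      have h3 : σ⁻¹ (pt e w) = pt e w := by rw [Equiv.Perm.inv_eq_iff_eq, h2]
      rw [h3] at h1
      exact pt_notMem e w h1
    split_ifs with h
    · exact key false h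
    · have : σ⁻¹ (pt true w) ∈ Y0 m := by tauto
      exact key true this
  · intro w _ w' _ h
    dsimp only at h
    split_ifs at h
    · exact (pt_inj h).2
    · exact (pt_inj h).2
    · exact (pt_inj h).2
    · exact (pt_inj h).2

open Classical in
/-- **Reverse Markov.** -/
theorem prob_real {m : ℕ} (hm : 1 ≤ m) (q : Equiv.Perm (Fin (m + 2) → Bool) → ℝ)
    (hq : ∀ σ, 0 ≤ q σ) (hc : ∀ τ σ, q (τ * σ * τ⁻¹) = q σ) {s : ℕ} (hs : 1 ≤ s) :
    (∑ σ, if s ≤ mv σ then q σ else 0) ≤ 20 * ∑ σ, if s ≤ 20 * G m σ then q σ else 0 := by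
  set ν : Equiv.Perm (Fin (m + 2) → Bool) → ℝ := fun σ =>
    if s ≤ mv σ then q σ / mv σ else 0 with hν
  have hν0 : ∀ σ, 0 ≤ ν σ := by
    intro σ
    rw [hν]
    dsimp only
    split_ifs
    · exact div_nonneg (hq σ) (Nat.cast_nonneg _)
    · exact le_rfl
  have hνc : ∀ τ σ, ν (τ * σ * τ⁻¹) = ν σ := by
    intro τ σ
    rw [hν]
    dsimp only
    rw [mv_conj, hc]
  have hW : (Y0 m).card = 2 * Fintype.card (Fin m → Bool) := by
    rw [card_Y0]
    simp [pow_succ]
    ring
  have hX : Fintype.card (Fin (m + 2) → Bool) = 2 * (Y0 m).card := by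
    rw [card_Y0]
    simp [pow_succ]
    ring
  have h4 : 4 ≤ (Y0 m).card := by
    rw [card_Y0]
    calc 4 = 2 ^ 2 := by norm_num
      _ ≤ 2 ^ (m + 1) := Nat.pow_le_pow_right (by norm_num) (by omega)
  have h1 := count (ν := ν) (Y := Y0 m) (p₀ := pt false) (p₁ := pt true) hνc hν0
    (fun w => pt_notMem false w) (fun w => pt_notMem true w)
    (fun w h => by simpa using (pt_inj h).1) hX h4 hW
  have h2 : (∑ σ, ν σ * ((Finset.univ.filter (fun x => σ x ≠ x)).card : ℝ)) =
      ∑ σ, if s ≤ mv σ then q σ else 0 := by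
    refine Finset.sum_congr rfl fun σ _ => ?_
    rw [hν]
    dsimp only
    split_ifs with h
    · have h5 : (mv σ : ℝ) ≠ 0 := by
        have : 0 < mv σ := by omega
        exact_mod_cast this.ne'
      have h6 : ((Finset.univ.filter (fun x => σ x ≠ x)).card : ℝ) = mv σ := by
        unfold mv
        congr!
      rw [h6]
      field_simp
    · rw [zero_mul]
  have h3 : (∑ σ, ν σ * ((Finset.univ.filter (fun w : Fin m → Bool =>
      ¬ (σ⁻¹ (pt false w) ∈ Y0 m ↔ σ⁻¹ (pt true w) ∈ Y0 m))).card : ℝ)) ≤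
      (1 / 20) * (∑ σ, if s ≤ mv σ then q σ else 0) +
        ∑ σ, if s ≤ 20 * G m σ then q σ else 0 := by
    rw [Finset.mul_sum, ← Finset.sum_add_distrib]
    refine Finset.sum_le_sum fun σ _ => ?_
    have h6 : ((Finset.univ.filter (fun w : Fin m → Bool =>
      ¬ (σ⁻¹ (pt false w) ∈ Y0 m ↔ σ⁻¹ (pt true w) ∈ Y0 m))).card : ℝ) = G m σ := by
      unfold G
      congr!
    rw [h6, hν]
    dsimp only
    have hqσ := hq σ
    split_ifs with h h' h'
    · have h5 : (0 : ℝ) < mv σ := by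
        have : 0 < mv σ := by omega
        exact_mod_cast this
      have h7 : (G m σ : ℝ) ≤ mv σ := by exact_mod_cast G_le m σ
      have h8 : q σ / mv σ * G m σ ≤ q σ := by
        rw [div_mul_eq_mul_div, div_le_iff₀ h5]
        exact mul_le_mul_of_nonneg_left h7 hqσ
      linarith
    · have h5 : (0 : ℝ) < mv σ := by
        have : 0 < mv σ := by omega
        exact_mod_cast this
      have h7 : 20 * (G m σ : ℝ) ≤ mv σ := by
        have : 20 * G m σ ≤ mv σ := by omega
        exact_mod_cast this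
      have h8 : q σ / mv σ * G m σ ≤ 1 / 20 * q σ := by
        rw [div_mul_eq_mul_div, div_le_iff₀ h5]
        nlinarith
      linarith
    · rw [zero_mul, mul_zero, zero_add]
      exact hqσ
    · simp
  have h5 := h1.trans (mul_le_mul_of_nonneg_left h3 (by norm_num : (0 : ℝ) ≤ 10))
  rw [h2] at h5
  linarith

variable {μ : (n : ℕ) → PMF (Equiv.Perm (Fin n → Bool))}

theorem toMeasure_real {n : ℕ} (Q : Equiv.Perm (Fin n → Bool) → Prop) [DecidablePred Q] :
    (μ n).toMeasure {σ | Q σ} = ENNReal.ofReal (∑ σ, if Q σ then (μ n σ).toReal else 0) := by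
  rw [PMF.toMeasure_apply_fintype, ENNReal.ofReal_sum_of_nonneg]
  · refine Finset.sum_congr rfl fun σ _ => ?_
    by_cases h : Q σ
    · rw [if_pos h, Set.indicator_of_mem (show σ ∈ {σ | Q σ} from h),
        ENNReal.ofReal_toReal (PMF.apply_ne_top _ _)]
    · rw [if_neg h, Set.indicator_of_notMem (show σ ∉ {σ | Q σ} from h)]
      simp
  · intro σ _
    split_ifs
    · exact ENNReal.toReal_nonneg
    · exact le_rfl

theorem prob (hμ : Inv μ) {m : ℕ} (hm : 1 ≤ m) {s : ℕ} (hs : 1 ≤ s) :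
    (μ (m + 2)).toMeasure {σ | s ≤ mv σ} ≤
      20 * (μ (m + 2)).toMeasure {σ | s ≤ 20 * G m σ} := by
  rw [toMeasure_real, toMeasure_real, show (20 : ENNReal) = ENNReal.ofReal 20 by norm_num,
    ← ENNReal.ofReal_mul (by norm_num)]
  apply ENNReal.ofReal_le_ofReal
  exact prob_real hm (fun σ => (μ (m + 2) σ).toReal) (fun σ => ENNReal.toReal_nonneg)
    (fun τ σ => by rw [hμ]) hs

end Pool.Agent.TH442.RP
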